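import Mathlib
import Pool.Graph.R_seed8.H772R2.NS.Lam

/-!
The energy defect only changes across the gaps of the set of the times of bounded enstrophy: a
variant of the theorems of the library in which the work of the convective term against the
velocities at the good times is bounded by a function `κ`.
-/

set_option linter.unusedSectionVars false
set_option autoImplicit false

open MeasureTheory Set Filter Topology
open scoped InnerProductSpace ENNReal

namespace Pool.Agent.Helper30.EJ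

open H772R2.NS H772R2.NS.Sol

variable {H K : Type*} [NormedAddCommGroup H] [InnerProductSpace ℝ H] [CompleteSpace H]
  [NormedAddCommGroup K] [InnerProductSpace ℝ K] [CompleteSpace K]

/-- the error density. -/
noncomputable def wk (ν M h : ℝ) (κ : ℝ → ℝ) (G : ℝ → K) (f : ℝ → H) (τ : ℝ) : ℝ :=
  κ τ + ν * h * ‖G τ‖ + 2 * M * ‖f τ‖ + ν * ‖G τ‖ ^ 2

variable {W : Submodule ℝ (H × K)} {T M ν : ℝ} {u : ℝ → H} {G m : ℝ → K} {f : ℝ → H}

theorem wk_int (S : Sol W T M ν u G m f) (h : ℝ) {κ : ℝ → ℝ} {s t : ℝ} (h0 : 0 ≤ s) (hT : t ≤ T)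
    {E : Set ℝ} (hE : E ⊆ Ioc s t) (hκ : IntegrableOn κ E volume) :
    IntegrableOn (wk ν M h κ G f) E volume := by
  have hsub : E ⊆ Ioc 0 T := hE.trans (Ioc_subset_Ioc h0 hT)
  unfold wk
  exact ((hκ.add (IntegrableOn.mono_set (S.Gint.norm.const_mul (ν * h)) hsub)).add
    (IntegrableOn.mono_set (S.fint.norm.const_mul (2 * M)) hsub)).add
    (IntegrableOn.mono_set (S.G2.const_mul ν) hsub)

theorem key2 (S : Sol W T M ν u G m f) {h : ℝ} {A : Set ℝ} (hA : IsClosed A)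
    (hAg : A ⊆ good W T u h) {s t : ℝ} (hs : s ∈ A) (ht : t ∈ A) (hst : s ≤ t) {κ : ℝ → ℝ}
    (hκi : IntegrableOn κ (Ioc s t \ A) volume)
    (hκ : ∀ᵐ τ ∂(volume.restrict (Ioc s t \ A)), ∀ a ∈ Icc s t, ∀ z, ‖z‖ ≤ h → (u a, z) ∈ W →
      |⟪m τ, z⟫_ℝ| ≤ κ τ) :
    |defect ν u G f t - defect ν u G f s| ≤ ∫ τ in Ioc s t \ A, wk ν M h κ G f τ := by
  classical
  have hAI : A ⊆ Icc 0 T := fun a ha => (hAg ha).1
  choose! z hz using fun a (ha : a ∈ A) => (hAg ha).2
  have hs0 : 0 ≤ s := (hAI hs).1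
  have htT : t ≤ T := (hAI ht).2
  let P : ℕ → ℕ → ℝ := fun n i => pt A s t (n + 1) i
  let U : ℕ → ℕ → H × K := fun n i => (u (P n i) + u (P n (i + 1)), z (P n i) + z (P n (i + 1)))
  let Φ : ℕ → ℝ → ℝ := fun n τ =>
    ∑ i ∈ Finset.range (n + 1), (Ioc (P n i) (P n (i + 1))).indicator (rhs ν G m f (U n i)) τ
  have hPA : ∀ n i, i ≤ n + 1 → P n i ∈ A := fun n i hi =>
    pt_mem hA ht hst (Nat.succ_pos n) hi
  have hPmono : ∀ n i, i < n + 1 → P n i ≤ P n (i + 1) := fun n i hi =>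
    pt_mono hA ht hst (Nat.succ_pos n) (Nat.le_succ i) hi
  have hPs : ∀ n i, i ≤ n + 1 → s ≤ P n i := fun n i hi => le_pt hA hs ht hst (Nat.succ_pos n) hi
  have hPt : ∀ n i, i ≤ n + 1 → P n i ≤ t := fun n i hi => pt_le hA ht hst (Nat.succ_pos n) hi
  -- value of Φ on the partition intervals
  have hΦval : ∀ n i, i < n + 1 → ∀ τ ∈ Ioc (P n i) (P n (i + 1)),
      Φ n τ = rhs ν G m f (U n i) τ := by
    intro n i hi τ hτ
    show ∑ j ∈ Finset.range (n + 1), _ = _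
    rw [Finset.sum_eq_single i]
    · rw [indicator_of_mem hτ]
    · intro j hj hji
      rw [indicator_of_notMem]
      intro hτj
      exact hji (index_unique hA ht hst (Nat.succ_pos n) (Finset.mem_range.mp hj) hi hτj hτ)
    · intro hni
      exact absurd (Finset.mem_range.mpr hi) hni
  have hsub : Ioc s t ⊆ Ioc 0 T := Ioc_subset_Ioc hs0 htT
  -- integrability
  have hrint : ∀ p, IntegrableOn (rhs ν G m f p) (Ioc s t) volume := fun p =>
    IntegrableOn.mono_set (S.rhs_int p) hsub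
  have hΦint : ∀ n, IntegrableOn (Φ n) (Ioc s t) volume := by
    intro n
    show Integrable (fun τ => ∑ i ∈ Finset.range (n + 1), _) _
    refine integrable_finsetSum _ (fun i _ => ?_)
    exact (hrint _).indicator measurableSet_Ioc
  have hpint : IntegrableOn (pow ν u G f) (Ioc s t) volume := IntegrableOn.mono_set S.pow_int hsub
  have hwint : IntegrableOn (wt ν M h G m f) (Ioc s t) volume :=
    IntegrableOn.mono_set (S.wt_int h) hsub
  have hwkint : IntegrableOn (wk ν M h κ G f) (Ioc s t \ A) volume :=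
    wk_int S h hs0 htT sdiff_subset hκi
  -- claim 1
  have claim1 : ∀ n, ‖u t‖ ^ 2 - ‖u s‖ ^ 2 = ∫ τ in s..t, Φ n τ := by
    intro n
    have e1 : ∑ i ∈ Finset.range (n + 1), (‖u (P n (i + 1))‖ ^ 2 - ‖u (P n i)‖ ^ 2)
        = ‖u t‖ ^ 2 - ‖u s‖ ^ 2 := by
      rw [Finset.sum_range_sub (fun i => ‖u (P n i)‖ ^ 2)]
      have h1 : P n (n + 1) = t := pt_last hA ht (Nat.succ_pos n)
      have h2 : P n 0 = s := pt_zero hA hs _
      rw [h1, h2]
    have e2 : ∑ i ∈ Finset.range (n + 1), (‖u (P n (i + 1))‖ ^ 2 - ‖u (P n i)‖ ^ 2)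
        = ∑ i ∈ Finset.range (n + 1), ∫ τ in P n i..P n (i + 1), Φ n τ := by
      refine Finset.sum_congr rfl (fun i hi => ?_)
      have hi' := Finset.mem_range.mp hi
      rw [S.sq_sub (hs0.trans (hPs n i hi'.le)) (hPmono n i hi') ((hPt n (i + 1) hi').trans htT)
        (hz _ (hPA n i hi'.le)).2 (hz _ (hPA n (i + 1) hi')).2]
      refine intervalIntegral.integral_congr_ae ?_
      rw [uIoc_of_le (hPmono n i hi')]
      exact Eventually.of_forall (fun τ hτ => (hΦval n i hi' τ hτ).symm)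
    have e3 : ∑ i ∈ Finset.range (n + 1), ∫ τ in P n i..P n (i + 1), Φ n τ
        = ∫ τ in P n 0..P n (n + 1), Φ n τ := by
      apply intervalIntegral.sum_integral_adjacent_intervals
      intro i hi
      rw [intervalIntegrable_iff_integrableOn_Ioc_of_le (hPmono n i hi)]
      exact (hΦint n).mono_set (Ioc_subset_Ioc (hPs n i hi.le) (hPt n (i + 1) hi))
    have h1 : P n (n + 1) = t := pt_last hA ht (Nat.succ_pos n)
    have h2 : P n 0 = s := pt_zero hA hs _
    rw [h1, h2] at e3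
    rw [← e1, e2, e3]
  -- claim 2
  have hUb : ∀ n i, i < n + 1 → ‖(U n i).1‖ ≤ 2 * M ∧ ‖(U n i).2‖ ≤ 2 * h := by
    intro n i hi
    have a1 := hPA n i hi.le
    have a2 := hPA n (i + 1) hi
    constructor
    · calc ‖(U n i).1‖ ≤ ‖u (P n i)‖ + ‖u (P n (i + 1))‖ := norm_add_le _ _
        _ ≤ M + M := add_le_add (S.bdd _ (hAI a1)) (S.bdd _ (hAI a2))
        _ = 2 * M := by ring
    · calc ‖(U n i).2‖ ≤ ‖z (P n i)‖ + ‖z (P n (i + 1))‖ := norm_add_le _ _
        _ ≤ h + h := add_le_add (hz _ a1).1 (hz _ a2).1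
        _ = 2 * h := by ring
  have claim2 : ∀ n, ∀ τ ∈ Ioc s t, |Φ n τ| ≤ 2 * h * ‖m τ‖ + 2 * ν * h * ‖G τ‖ + 2 * M * ‖f τ‖ := by
    intro n τ hτ
    obtain ⟨i, hi, h1, h2⟩ := exists_index hA hs ht (Nat.succ_pos n) hτ
    rw [hΦval n i hi τ ⟨h1, h2⟩]
    exact S.rhs_bound (hUb n i hi).1 (hUb n i hi).2 τ
  -- claim 2'
  have claim2' : ∀ n, ∀ τ ∈ Ioc s t, (∀ a ∈ Icc s t, ∀ z, ‖z‖ ≤ h → (u a, z) ∈ W →
      |⟪m τ, z⟫_ℝ| ≤ κ τ) → |Φ n τ| ≤ 2 * κ τ + 2 * ν * h * ‖G τ‖ + 2 * M * ‖f τ‖ := by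
    intro n τ hτ hk
    obtain ⟨i, hi, h1, h2⟩ := exists_index hA hs ht (Nat.succ_pos n) hτ
    rw [hΦval n i hi τ ⟨h1, h2⟩]
    have a1 := hPA n i hi.le
    have a2 := hPA n (i + 1) hi
    have b1 := hk (P n i) ⟨hPs n i hi.le, hPt n i hi.le⟩ (z (P n i)) (hz _ a1).1 (hz _ a1).2
    have b2 := hk (P n (i + 1)) ⟨hPs n (i + 1) hi, hPt n (i + 1) hi⟩ (z (P n (i + 1)))
      (hz _ a2).1 (hz _ a2).2
    have c1 : |⟪m τ, (U n i).2⟫_ℝ| ≤ 2 * κ τ := by
      show |⟪m τ, z (P n i) + z (P n (i + 1))⟫_ℝ| ≤ 2 * κ τ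
      rw [inner_add_right]
      refine (abs_add_le _ _).trans ?_
      linarith
    unfold rhs
    have c2 : |⟪G τ, (U n i).2⟫_ℝ| ≤ ‖G τ‖ * (2 * h) :=
      (abs_real_inner_le_norm _ _).trans (by gcongr; exact (hUb n i hi).2)
    have c3 : |⟪f τ, (U n i).1⟫_ℝ| ≤ ‖f τ‖ * (2 * M) :=
      (abs_real_inner_le_norm _ _).trans (by gcongr; exact (hUb n i hi).1)
    have c4 : |ν * ⟪G τ, (U n i).2⟫_ℝ| ≤ ν * (‖G τ‖ * (2 * h)) := by
      rw [abs_mul, abs_of_nonneg S.ν0]
      exact mul_le_mul_of_nonneg_left c2 S.ν0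
    calc |⟪m τ, (U n i).2⟫_ℝ - ν * ⟪G τ, (U n i).2⟫_ℝ + ⟪f τ, (U n i).1⟫_ℝ|
        ≤ |⟪m τ, (U n i).2⟫_ℝ - ν * ⟪G τ, (U n i).2⟫_ℝ| + |⟪f τ, (U n i).1⟫_ℝ| := abs_add_le _ _
      _ ≤ |⟪m τ, (U n i).2⟫_ℝ| + |ν * ⟪G τ, (U n i).2⟫_ℝ| + |⟪f τ, (U n i).1⟫_ℝ| := by
          gcongr; exact abs_sub _ _
      _ ≤ _ := by linarith
  -- claim 3
  have claim3 : ∀ᵐ τ ∂(volume.restrict (Ioc s t)), τ ∈ A →
      Tendsto (fun n => Φ n τ) atTop (𝓝 (2 * pow ν u G f τ)) := by
    have b1 : ∀ᵐ τ ∂(volume.restrict (Ioc s t)), τ ∈ A → TwoSided A τ :=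
      ae_restrict_of_ae (ae_twoSided A)
    have b2 : ∀ᵐ τ ∂(volume.restrict (Ioc s t)), (u τ, G τ) ∈ W :=
      ae_mono (Measure.restrict_mono hsub le_rfl) S.memW
    have b3 : ∀ᵐ τ ∂(volume.restrict (Ioc s t)), ⟪m τ, G τ⟫_ℝ = 0 :=
      ae_mono (Measure.restrict_mono hsub le_rfl) S.ortho
    have b4 : ∀ᵐ τ ∂(volume.restrict (Ioc s t)), τ ≠ t := by
      apply ae_restrict_of_ae
      have : (volume : Measure ℝ) {t} = 0 := by simp
      rw [measure_eq_zero_iff_ae_notMem] at this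
      filter_upwards [this] with x hx using hx
    filter_upwards [b1, b2, b3, b4, ae_restrict_mem measurableSet_Ioc] with τ h1 h2 h3 h4 h5 hτA
    have h2s := h1 hτA
    have hτo : τ ∈ Ioo s t := ⟨h5.1, lt_of_le_of_ne h5.2 h4⟩
    have hzG : z τ = G τ := S.grad_unique (hz τ hτA).2 h2
    choose idx hidx using fun n => exists_index hA hs ht (Nat.succ_pos n) h5
    have hΦeq : ∀ n, Φ n τ = rhs ν G m f (U n (idx n)) τ := fun n =>
      hΦval n (idx n) (hidx n).1 τ ⟨(hidx n).2.1, (hidx n).2.2⟩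
    have hα : Tendsto (fun n => P n (idx n)) atTop (𝓝[A] τ) := by
      rw [tendsto_nhdsWithin_iff]
      constructor
      · rw [Metric.tendsto_atTop]
        intro ε hε
        obtain ⟨N, hN⟩ := index_close hA ht hst hτo h2s ε hε
        refine ⟨N, fun n hn => ?_⟩
        have := hN (n + 1) (by omega) (Nat.succ_pos n) (idx n) (hidx n).1 (hidx n).2.1 (hidx n).2.2
        have h6 := (hidx n).2.1
        rw [Real.dist_eq, abs_lt]
        constructor
        · have := this.1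
          show -ε < pt A s t (n + 1) (idx n) - τ
          linarith
        · show pt A s t (n + 1) (idx n) - τ < ε
          linarith
      · exact Eventually.of_forall (fun n => hPA n _ (hidx n).1.le)
    have hβ : Tendsto (fun n => P n (idx n + 1)) atTop (𝓝[A] τ) := by
      rw [tendsto_nhdsWithin_iff]
      constructor
      · rw [Metric.tendsto_atTop]
        intro ε hε
        obtain ⟨N, hN⟩ := index_close hA ht hst hτo h2s ε hε
        refine ⟨N, fun n hn => ?_⟩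
        have := hN (n + 1) (by omega) (Nat.succ_pos n) (idx n) (hidx n).1 (hidx n).2.1 (hidx n).2.2
        have h6 := (hidx n).2.2
        rw [Real.dist_eq, abs_lt]
        constructor
        · show -ε < pt A s t (n + 1) (idx n + 1) - τ
          linarith
        · have := this.2
          show pt A s t (n + 1) (idx n + 1) - τ < ε
          linarith
      · exact Eventually.of_forall (fun n => hPA n _ (hidx n).1)
    have hzw : ∀ y, Tendsto (fun a => ⟪z a, y⟫_ℝ) (𝓝[A] τ) (𝓝 ⟪z τ, y⟫_ℝ) := fun y =>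
      S.grad_wcont hAI hz hτA y
    have huw : ∀ y, Tendsto (fun a => ⟪u a, y⟫_ℝ) (𝓝[A] τ) (𝓝 ⟪u τ, y⟫_ℝ) := fun y =>
      S.utend nhdsWithin_le_nhds (hAI hτA) (mem_of_superset self_mem_nhdsWithin hAI) y
    have lim2 : ∀ y, Tendsto (fun n => ⟪(U n (idx n)).2, y⟫_ℝ) atTop (𝓝 (2 * ⟪z τ, y⟫_ℝ)) := by
      intro y
      have := ((hzw y).comp hα).add ((hzw y).comp hβ)
      rw [two_mul]
      refine this.congr (fun n => ?_)
      simp only [U, inner_add_left, Function.comp]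
    have lim1 : ∀ y, Tendsto (fun n => ⟪(U n (idx n)).1, y⟫_ℝ) atTop (𝓝 (2 * ⟪u τ, y⟫_ℝ)) := by
      intro y
      have := ((huw y).comp hα).add ((huw y).comp hβ)
      rw [two_mul]
      refine this.congr (fun n => ?_)
      simp only [U, inner_add_left, Function.comp]
    have lim : Tendsto (fun n => rhs ν G m f (U n (idx n)) τ) atTop
        (𝓝 (2 * ⟪z τ, m τ⟫_ℝ - ν * (2 * ⟪z τ, G τ⟫_ℝ) + 2 * ⟪u τ, f τ⟫_ℝ)) := by
      have := ((lim2 (m τ)).sub ((lim2 (G τ)).const_mul ν)).add (lim1 (f τ))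
      refine this.congr (fun n => ?_)
      unfold rhs
      rw [real_inner_comm (m τ), real_inner_comm (G τ), real_inner_comm (f τ)]
    have hval : 2 * ⟪z τ, m τ⟫_ℝ - ν * (2 * ⟪z τ, G τ⟫_ℝ) + 2 * ⟪u τ, f τ⟫_ℝ
        = 2 * pow ν u G f τ := by
      unfold pow
      rw [hzG, real_inner_comm (m τ) (G τ), h3, real_inner_self_eq_norm_sq,
        real_inner_comm (f τ) (u τ)]
      ring
    rw [← hval]
    exact lim.congr (fun n => (hΦeq n).symm)
  -- conclusion
  have hdef : ∀ n, 2 * (defect ν u G f t - defect ν u G f s)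
      = - ∫ τ in Ioc s t, (Φ n τ - 2 * pow ν u G f τ) := by
    intro n
    rw [S.defect_sub hs0 hst htT, claim1 n, intervalIntegral.integral_of_le hst,
      intervalIntegral.integral_of_le hst, integral_sub (hΦint n) (hpint.const_mul 2),
      integral_const_mul]
    ring
  have hsplit : ∀ n, |2 * (defect ν u G f t - defect ν u G f s)|
      ≤ |∫ τ in Ioc s t ∩ A, (Φ n τ - 2 * pow ν u G f τ)|
        + 2 * ∫ τ in Ioc s t \ A, wk ν M h κ G f τ := by
    intro n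
    have hE : IntegrableOn (fun τ => Φ n τ - 2 * pow ν u G f τ) (Ioc s t) volume :=
      (hΦint n).sub (hpint.const_mul 2)
    rw [hdef n, abs_neg, ← integral_inter_add_sdiff hA.measurableSet hE]
    refine (abs_add_le _ _).trans ?_
    gcongr
    rw [← integral_const_mul]
    refine (abs_integral_le_integral_abs).trans ?_
    refine integral_mono_ae ?_ ?_ ?_
    · exact (hE.mono_set sdiff_subset).abs
    · exact hwkint.const_mul 2
    · filter_upwards [hκ, ae_restrict_mem (measurableSet_Ioc.diff hA.measurableSet)] with τ hk hτ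
      have c1 := claim2' n τ hτ.1 hk
      have c2 := S.pow_bound (τ := τ) ⟨(hs0.trans hτ.1.1.le), hτ.1.2.trans htT⟩
      calc |Φ n τ - 2 * pow ν u G f τ| ≤ |Φ n τ| + |2 * pow ν u G f τ| := abs_sub _ _
        _ = |Φ n τ| + 2 * |pow ν u G f τ| := by rw [abs_mul]; norm_num
        _ ≤ (2 * κ τ + 2 * ν * h * ‖G τ‖ + 2 * M * ‖f τ‖)
            + 2 * (M * ‖f τ‖ + ν * ‖G τ‖ ^ 2) := by gcongr
        _ = 2 * wk ν M h κ G f τ := by unfold wk; ring
  have hlim : Tendsto (fun n => ∫ τ in Ioc s t ∩ A, (Φ n τ - 2 * pow ν u G f τ)) atTop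
      (𝓝 (∫ τ in Ioc s t ∩ A, (0 : ℝ))) := by
    refine tendsto_integral_of_dominated_convergence (fun τ => 2 * wt ν M h G m f τ) ?_ ?_ ?_ ?_
    · intro n
      exact (((hΦint n).sub (hpint.const_mul 2)).mono_set inter_subset_left).aestronglyMeasurable
    · exact (hwint.mono_set inter_subset_left).const_mul 2
    · intro n
      filter_upwards [ae_restrict_mem (measurableSet_Ioc.inter hA.measurableSet)] with τ hτ
      have c1 := claim2 n τ hτ.1
      have c2 := S.pow_bound (τ := τ) ⟨(hs0.trans hτ.1.1.le), hτ.1.2.trans htT⟩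
      rw [Real.norm_eq_abs]
      calc |Φ n τ - 2 * pow ν u G f τ| ≤ |Φ n τ| + |2 * pow ν u G f τ| := abs_sub _ _
        _ = |Φ n τ| + 2 * |pow ν u G f τ| := by rw [abs_mul]; norm_num
        _ ≤ (2 * h * ‖m τ‖ + 2 * ν * h * ‖G τ‖ + 2 * M * ‖f τ‖)
            + 2 * (M * ‖f τ‖ + ν * ‖G τ‖ ^ 2) := by gcongr
        _ = 2 * wt ν M h G m f τ := by unfold wt; ring
    · have c3 : ∀ᵐ τ ∂(volume.restrict (Ioc s t ∩ A)), τ ∈ A →
          Tendsto (fun n => Φ n τ) atTop (𝓝 (2 * pow ν u G f τ)) :=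
        ae_mono (Measure.restrict_mono inter_subset_left le_rfl) claim3
      filter_upwards [c3, ae_restrict_mem (measurableSet_Ioc.inter hA.measurableSet)] with τ h1 h2
      have := (h1 h2.2).sub_const (2 * pow ν u G f τ)
      simpa using this
  have hfin : |2 * (defect ν u G f t - defect ν u G f s)|
      ≤ 2 * ∫ τ in Ioc s t \ A, wk ν M h κ G f τ := by
    have h1 := hlim.abs.add_const (2 * ∫ τ in Ioc s t \ A, wk ν M h κ G f τ)
    have h2 := ge_of_tendsto' h1 hsplit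
    simpa using h2
  rw [abs_mul] at hfin
  norm_num at hfin
  linarith

/-- one-step estimate with one good end point `g ∈ {s, t}`. -/
theorem abs_sq_sub_le2 (S : Sol W T M ν u G m f) {s t h : ℝ} (h0 : 0 ≤ s) (hst : s ≤ t)
    (hT : t ≤ T) {g e : ℝ} (hge : (g = s ∧ e = t) ∨ (g = t ∧ e = s)) (hg : g ∈ good W T u h)
    {κ : ℝ → ℝ} (hκi : IntegrableOn κ (Ioc s t) volume)
    (hκ : ∀ᵐ τ ∂(volume.restrict (Ioc s t)), ∀ z, ‖z‖ ≤ h → (u g, z) ∈ W →
      |⟪m τ, z⟫_ℝ| ≤ κ τ) :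
    |‖u t‖ ^ 2 - ‖u s‖ ^ 2| ≤ (∫ τ in Ioc s t, (κ τ + ν * h * ‖G τ‖ + M * ‖f τ‖))
      + |⟪u g - u e, u e⟫_ℝ| := by
  obtain ⟨hgI, z, hz, hzW⟩ := hg
  have hw := S.weak _ hzW s t h0 hst hT
  have hsub : Ioc s t ⊆ Ioc 0 T := Ioc_subset_Ioc h0 hT
  have hb : |⟪u t, u g⟫_ℝ - ⟪u s, u g⟫_ℝ|
      ≤ ∫ τ in Ioc s t, (κ τ + ν * h * ‖G τ‖ + M * ‖f τ‖) := by
    have e1 : ⟪u t, u g⟫_ℝ - ⟪u s, u g⟫_ℝ = ∫ τ in Ioc s t, rhs ν G m f (u g, z) τ := by
      rw [← intervalIntegral.integral_of_le hst]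
      simpa [rhs] using hw
    rw [e1]
    refine (abs_integral_le_integral_abs).trans ?_
    refine integral_mono_ae ?_ ?_ ?_
    · exact (IntegrableOn.mono_set (S.rhs_int _) hsub).abs
    · exact (hκi.add (IntegrableOn.mono_set (S.Gint.norm.const_mul (ν * h)) hsub)).add
        (IntegrableOn.mono_set (S.fint.norm.const_mul M) hsub)
    · filter_upwards [hκ] with τ hk
      have a1 := hk z hz hzW
      have a2 : |⟪G τ, z⟫_ℝ| ≤ ‖G τ‖ * h :=
        (abs_real_inner_le_norm _ _).trans (by gcongr)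
      have a3 : |⟪f τ, u g⟫_ℝ| ≤ ‖f τ‖ * M :=
        (abs_real_inner_le_norm _ _).trans (by gcongr; exact S.bdd g hgI)
      have a4 : |ν * ⟪G τ, z⟫_ℝ| ≤ ν * (‖G τ‖ * h) := by
        rw [abs_mul, abs_of_nonneg S.ν0]
        exact mul_le_mul_of_nonneg_left a2 S.ν0
      show |⟪m τ, z⟫_ℝ - ν * ⟪G τ, z⟫_ℝ + ⟪f τ, u g⟫_ℝ| ≤ _
      calc |⟪m τ, z⟫_ℝ - ν * ⟪G τ, z⟫_ℝ + ⟪f τ, u g⟫_ℝ|
          ≤ |⟪m τ, z⟫_ℝ - ν * ⟪G τ, z⟫_ℝ| + |⟪f τ, u g⟫_ℝ| := abs_add_le _ _
        _ ≤ |⟪m τ, z⟫_ℝ| + |ν * ⟪G τ, z⟫_ℝ| + |⟪f τ, u g⟫_ℝ| := by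
            gcongr; exact abs_sub _ _
        _ ≤ _ := by linarith
  rcases hge with ⟨rfl, rfl⟩ | ⟨rfl, rfl⟩
  · have e2 : ‖u e‖ ^ 2 - ‖u g‖ ^ 2
        = (⟪u e, u g⟫_ℝ - ⟪u g, u g⟫_ℝ) - ⟪u g - u e, u e⟫_ℝ := by
      rw [inner_sub_left, real_inner_self_eq_norm_sq, real_inner_self_eq_norm_sq,
        real_inner_comm (u g) (u e)]
      ring
    rw [e2]
    exact (abs_sub _ _).trans (by gcongr)
  · have e2 : ‖u g‖ ^ 2 - ‖u e‖ ^ 2
        = (⟪u g, u g⟫_ℝ - ⟪u e, u g⟫_ℝ) + ⟪u g - u e, u e⟫_ℝ := by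
      rw [inner_sub_left, real_inner_self_eq_norm_sq, real_inner_self_eq_norm_sq,
        real_inner_comm (u g) (u e)]
      ring
    rw [e2]
    exact (abs_add_le _ _).trans (by gcongr)

/-- defect estimate on a short interval without interior good points -/
theorem defect_end2 (S : Sol W T M ν u G m f) {s t h : ℝ} (h0 : 0 ≤ s) (hst : s ≤ t)
    (hT : t ≤ T) {g e : ℝ} (hge : (g = s ∧ e = t) ∨ (g = t ∧ e = s)) (hg : g ∈ good W T u h)
    {κ : ℝ → ℝ} (hκi : IntegrableOn κ (Ioc s t) volume) (hκ0 : ∀ τ, 0 ≤ κ τ)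
    (hκ : ∀ᵐ τ ∂(volume.restrict (Ioc s t)), ∀ z, ‖z‖ ≤ h → (u g, z) ∈ W →
      |⟪m τ, z⟫_ℝ| ≤ κ τ) :
    |defect ν u G f t - defect ν u G f s| ≤ (∫ τ in Ioc s t, wk ν M h κ G f τ)
      + |⟪u g - u e, u e⟫_ℝ| / 2 := by
  have hsub : Ioc s t ⊆ Ioc 0 T := Ioc_subset_Ioc h0 hT
  have hh : 0 ≤ h := by
    obtain ⟨_, z, hz, _⟩ := hg
    exact (norm_nonneg _).trans hz
  have h1 := abs_sq_sub_le2 S h0 hst hT hge hg hκi hκ
  rw [S.defect_sub h0 hst hT]
  have h2 : |∫ τ in s..t, pow ν u G f τ| ≤ ∫ τ in Ioc s t, (M * ‖f τ‖ + ν * ‖G τ‖ ^ 2) := by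
    rw [intervalIntegral.integral_of_le hst]
    refine (abs_integral_le_integral_abs).trans ?_
    refine setIntegral_mono_on ?_ ?_ measurableSet_Ioc ?_
    · exact (IntegrableOn.mono_set S.pow_int hsub).abs
    · exact IntegrableOn.mono_set ((S.fint.norm.const_mul M).add (S.G2.const_mul ν)) hsub
    · intro τ hτ
      exact S.pow_bound ⟨h0.trans hτ.1.le, hτ.2.trans hT⟩
  have i1 : IntegrableOn (fun τ => M * ‖f τ‖ + ν * ‖G τ‖ ^ 2) (Ioc s t) volume :=
    IntegrableOn.mono_set ((S.fint.norm.const_mul M).add (S.G2.const_mul ν)) hsub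
  have i2 : IntegrableOn (fun τ => κ τ + ν * h * ‖G τ‖ + M * ‖f τ‖) (Ioc s t) volume :=
    (hκi.add (IntegrableOn.mono_set (S.Gint.norm.const_mul (ν * h)) hsub)).add
      (IntegrableOn.mono_set (S.fint.norm.const_mul M) hsub)
  have i3 : IntegrableOn (wk ν M h κ G f) (Ioc s t) volume :=
    wk_int S h h0 hT subset_rfl hκi
  have h3 : (∫ τ in Ioc s t, (M * ‖f τ‖ + ν * ‖G τ‖ ^ 2))
      + (∫ τ in Ioc s t, (κ τ + ν * h * ‖G τ‖ + M * ‖f τ‖)) / 2
      ≤ ∫ τ in Ioc s t, wk ν M h κ G f τ := by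
    rw [← integral_div, ← integral_add i1 (i2.div_const 2)]
    refine setIntegral_mono_on (i1.add (i2.div_const 2)) i3 measurableSet_Ioc ?_
    intro τ _
    unfold wk
    have n1 := hκ0 τ
    have n2 : 0 ≤ ν * h * ‖G τ‖ := mul_nonneg (mul_nonneg S.ν0 hh) (norm_nonneg _)
    have n3 : 0 ≤ M * ‖f τ‖ := mul_nonneg S.M0 (norm_nonneg _)
    linarith
  calc |(∫ τ in s..t, pow ν u G f τ) - (‖u t‖ ^ 2 - ‖u s‖ ^ 2) / 2|
      ≤ |∫ τ in s..t, pow ν u G f τ| + |(‖u t‖ ^ 2 - ‖u s‖ ^ 2) / 2| := abs_sub _ _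
    _ = |∫ τ in s..t, pow ν u G f τ| + |‖u t‖ ^ 2 - ‖u s‖ ^ 2| / 2 := by
        rw [abs_div]; norm_num
    _ ≤ _ := by linarith

/-- Bridging estimate between two arbitrary times. -/
theorem defect_bridge2 (S : Sol W T M ν u G m f) {s t h : ℝ} (h0 : 0 ≤ s) (hT : t ≤ T)
    {a b : ℝ} (hsb : s ≤ b) (hba : b ≤ a) (hat : a ≤ t)
    (ha : a ∈ good W T u h) (hb : b ∈ good W T u h)
    (hgap1 : ∀ x ∈ Ioo s b, x ∉ good W T u h) (hgap2 : ∀ x ∈ Ioo a t, x ∉ good W T u h)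
    {κ : ℝ → ℝ} (hκi : IntegrableOn κ (Ioc s t) volume) (hκ0 : ∀ τ, 0 ≤ κ τ)
    (hκ : ∀ᵐ τ ∂(volume.restrict (Ioc s t \ good W T u h)), ∀ a ∈ Icc s t, ∀ z, ‖z‖ ≤ h →
      (u a, z) ∈ W → |⟪m τ, z⟫_ℝ| ≤ κ τ) :
    |defect ν u G f t - defect ν u G f s| ≤ (∫ τ in Ioc s t \ good W T u h, wk ν M h κ G f τ)
      + |⟪u b - u s, u s⟫_ℝ| / 2 + |⟪u a - u t, u t⟫_ℝ| / 2 := by
  have hA := S.good_closed h
  have hAm := hA.measurableSet
  have hst : s ≤ t := hsb.trans (hba.trans hat)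
  have hwi : IntegrableOn (wk ν M h κ G f) (Ioc s t) volume := wk_int S h h0 hT subset_rfl hκi
  have q1 : (Ioc s b \ good W T u h : Set ℝ) =ᵐ[volume] Ioc s b := by
    have hsub1 : Ioc s b \ (Ioc s b \ good W T u h) ⊆ {b} := by
      intro x hx
      by_contra hne
      have hx1 : x ∈ Ioc s b := hx.1
      have hxg : x ∈ good W T u h := by
        by_contra hcon
        exact hx.2 ⟨hx1, hcon⟩
      exact hgap1 x ⟨hx1.1, lt_of_le_of_ne hx1.2 hne⟩ hxg
    have hnull : volume (Ioc s b \ (Ioc s b \ good W T u h)) = 0 :=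
      measure_mono_null hsub1 (by simp)
    refine (ae_eq_set.mpr ⟨?_, hnull⟩)
    have : (Ioc s b \ good W T u h) \ Ioc s b = ∅ := by
      ext x; simp
    rw [this]; simp
  have q2 : (Ioc a t \ good W T u h : Set ℝ) =ᵐ[volume] Ioc a t := by
    have hsub1 : Ioc a t \ (Ioc a t \ good W T u h) ⊆ {t} := by
      intro x hx
      by_contra hne
      have hx1 : x ∈ Ioc a t := hx.1
      have hxg : x ∈ good W T u h := by
        by_contra hcon
        exact hx.2 ⟨hx1, hcon⟩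
      exact hgap2 x ⟨hx1.1, lt_of_le_of_ne hx1.2 hne⟩ hxg
    have hnull : volume (Ioc a t \ (Ioc a t \ good W T u h)) = 0 :=
      measure_mono_null hsub1 (by simp)
    refine (ae_eq_set.mpr ⟨?_, hnull⟩)
    have : (Ioc a t \ good W T u h) \ Ioc a t = ∅ := by
      ext x; simp
    rw [this]; simp
  have k1 := key2 S hA le_rfl hb ha hba (hκi.mono_set (sdiff_subset.trans (Ioc_subset_Ioc hsb hat)))
    (by
      have := ae_mono (Measure.restrict_mono (sdiff_subset_sdiff_left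
        (Ioc_subset_Ioc hsb hat)) le_rfl) hκ
      filter_upwards [this] with τ hτ c hc
      exact hτ c ⟨hsb.trans hc.1, hc.2.trans hat⟩)
  have k2 := defect_end2 S h0 hsb (hba.trans (hat.trans hT)) (Or.inr ⟨rfl, rfl⟩) hb
    (hκi.mono_set (Ioc_subset_Ioc_right (hba.trans hat))) hκ0 (by
      rw [← Measure.restrict_congr_set q1]
      have := ae_mono (Measure.restrict_mono (sdiff_subset_sdiff_left
        (Ioc_subset_Ioc_right (hba.trans hat))) le_rfl) hκ
      filter_upwards [this] with τ hτ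
      exact hτ b ⟨hsb, hba.trans hat⟩)
  have k3 := defect_end2 S (h0.trans (hsb.trans hba)) hat hT (Or.inl ⟨rfl, rfl⟩) ha
    (hκi.mono_set (Ioc_subset_Ioc_left (hsb.trans hba))) hκ0 (by
      rw [← Measure.restrict_congr_set q2]
      have := ae_mono (Measure.restrict_mono (sdiff_subset_sdiff_left
        (Ioc_subset_Ioc_left (hsb.trans hba))) le_rfl) hκ
      filter_upwards [this] with τ hτ
      exact hτ a ⟨hsb.trans hba, hat⟩)
  have c1 : ∫ τ in Ioc s b, wk ν M h κ G f τ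
      = ∫ τ in Ioc s b \ good W T u h, wk ν M h κ G f τ := setIntegral_congr_set q1.symm
  have c2 : ∫ τ in Ioc a t, wk ν M h κ G f τ
      = ∫ τ in Ioc a t \ good W T u h, wk ν M h κ G f τ := setIntegral_congr_set q2.symm
  have u1 : Ioc s t \ good W T u h
      = ((Ioc s b \ good W T u h) ∪ (Ioc b a \ good W T u h)) ∪ (Ioc a t \ good W T u h) := by
    rw [← union_sdiff_distrib, ← union_sdiff_distrib, Ioc_union_Ioc_eq_Ioc hsb hba,
      Ioc_union_Ioc_eq_Ioc (hsb.trans hba) hat]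
  have i1 : IntegrableOn (wk ν M h κ G f) (Ioc s b \ good W T u h) volume :=
    hwi.mono_set (sdiff_subset.trans (Ioc_subset_Ioc_right (hba.trans hat)))
  have i2 : IntegrableOn (wk ν M h κ G f) (Ioc b a \ good W T u h) volume :=
    hwi.mono_set (sdiff_subset.trans (Ioc_subset_Ioc hsb hat))
  have i3 : IntegrableOn (wk ν M h κ G f) (Ioc a t \ good W T u h) volume :=
    hwi.mono_set (sdiff_subset.trans (Ioc_subset_Ioc_left (hsb.trans hba)))
  have s1 : ∫ τ in Ioc s t \ good W T u h, wk ν M h κ G f τ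
      = (∫ τ in Ioc s b \ good W T u h, wk ν M h κ G f τ)
        + (∫ τ in Ioc b a \ good W T u h, wk ν M h κ G f τ)
        + ∫ τ in Ioc a t \ good W T u h, wk ν M h κ G f τ := by
    rw [u1, setIntegral_union ?_ (measurableSet_Ioc.diff hAm) (i1.union i2) i3,
      setIntegral_union ?_ (measurableSet_Ioc.diff hAm) i1 i2]
    · rw [Set.disjoint_left]
      rintro x ⟨h1, _⟩ ⟨h2, _⟩
      exact absurd h1.2 (not_le.mpr h2.1)
    · rw [Set.disjoint_left]
      rintro x h1 ⟨h2, _⟩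
      rcases h1 with ⟨h3, _⟩ | ⟨h3, _⟩
      · exact absurd (h3.2.trans hba) (not_le.mpr h2.1)
      · exact absurd h3.2 (not_le.mpr h2.1)
  rw [s1, ← c1, ← c2]
  calc |defect ν u G f t - defect ν u G f s|
      = |(defect ν u G f t - defect ν u G f a) + (defect ν u G f a - defect ν u G f b)
          + (defect ν u G f b - defect ν u G f s)| := by congr 1; ring
    _ ≤ |defect ν u G f t - defect ν u G f a| + |defect ν u G f a - defect ν u G f b|
          + |defect ν u G f b - defect ν u G f s| := by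
        refine (abs_add_le _ _).trans ?_
        gcongr
        exact abs_add_le _ _
    _ ≤ _ := by linarith

/-- **Main estimate.** The energy defect is bounded by the integral of the bound of the work of the
convective term over the times of large enstrophy. -/
theorem lam2 (S : Sol W T M ν u G m f) {s t : ℝ} (h0 : 0 ≤ s) (hst : s ≤ t) (hT : t ≤ T)
    {κ : ℝ → ℝ → ℝ} (hκi : ∀ h, IntegrableOn (κ h) (Ioc s t) volume) (hκ0 : ∀ h τ, 0 ≤ κ h τ)
    (hκ : ∀ h, 0 ≤ h → ∀ᵐ τ ∂(volume.restrict (Ioc s t)), h < ‖G τ‖ → ∀ a ∈ Icc s t, ∀ z,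
      ‖z‖ ≤ h → (u a, z) ∈ W → |⟪m τ, z⟫_ℝ| ≤ κ h τ)
    (ε : ℝ) (hε : 0 < ε) :
    ∃ h0 : ℝ, ∀ h ≥ h0, |defect ν u G f t - defect ν u G f s|
      ≤ (∫ τ in Ioc s t ∩ {τ | h < ‖G τ‖}, κ h τ) + ε := by
  rcases hst.eq_or_lt with rfl | hlt
  · refine ⟨0, fun h hh => ?_⟩
    simp [hε.le]
  have hsub : Ioc s t ⊆ Ioc 0 T := Ioc_subset_Ioc h0 hT
  have hsI : s ∈ Icc 0 T := ⟨h0, hst.trans hT⟩
  have htI : t ∈ Icc 0 T := ⟨h0.trans hst, hT⟩
  -- weak continuity radii
  have wc1 := S.wcont (u s) s hsI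
  have wc2 := S.wcont (u t) t htI
  obtain ⟨δ1, hδ1, hw1⟩ := Metric.continuousWithinAt_iff.mp wc1 (ε / 2) (by linarith)
  obtain ⟨δ2, hδ2, hw2⟩ := Metric.continuousWithinAt_iff.mp wc2 (ε / 2) (by linarith)
  -- good points near the ends
  let mid := (s + t) / 2
  obtain ⟨τ1, hτ1, l1, hl1⟩ := S.exists_good (a := s) (b := min (s + δ1) mid) h0
    (lt_min (by linarith) (by simp only [mid]; linarith))
    ((min_le_right _ _).trans (by simp only [mid]; linarith))
  obtain ⟨τ2, hτ2, l2, hl2⟩ := S.exists_good (a := max (t - δ2) mid) (b := t)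
    (le_max_of_le_right (by simp only [mid]; linarith))
    (max_lt (by linarith) (by simp only [mid]; linarith)) hT
  -- tail integrals
  have htail : Tendsto (fun h : ℝ => ∫ τ in Ioc s t,
      ({τ | h < ‖G τ‖}.indicator (fun τ => 2 * ν * ‖G τ‖ ^ 2 + 2 * M * ‖f τ‖)) τ) atTop
      (𝓝 (∫ τ in Ioc s t, (0 : ℝ))) := by
    have hGm : AEStronglyMeasurable (fun τ => ‖G τ‖) (volume.restrict (Ioc s t)) :=
      (S.Gmeas.mono_measure (Measure.restrict_mono hsub le_rfl)).norm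
    have hint : IntegrableOn (fun τ => 2 * ν * ‖G τ‖ ^ 2 + 2 * M * ‖f τ‖) (Ioc s t) volume :=
      IntegrableOn.mono_set ((S.G2.const_mul (2 * ν)).add (S.fint.norm.const_mul (2 * M))) hsub
    refine tendsto_integral_filter_of_dominated_convergence
      (fun τ => 2 * ν * ‖G τ‖ ^ 2 + 2 * M * ‖f τ‖) ?_ ?_ hint ?_
    · refine Eventually.of_forall (fun h => ?_)
      have hset : NullMeasurableSet {τ | h < ‖G τ‖} (volume.restrict (Ioc s t)) :=
        nullMeasurableSet_lt aemeasurable_const hGm.aemeasurable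
      exact hint.aestronglyMeasurable.indicator₀ hset
    · refine Eventually.of_forall (fun h => Eventually.of_forall (fun τ => ?_))
      have hnn : 0 ≤ 2 * ν * ‖G τ‖ ^ 2 + 2 * M * ‖f τ‖ :=
        add_nonneg (mul_nonneg (mul_nonneg (by norm_num) S.ν0) (by positivity))
          (mul_nonneg (mul_nonneg (by norm_num) S.M0) (norm_nonneg _))
      rw [Real.norm_eq_abs]
      by_cases hτ : τ ∈ {τ | h < ‖G τ‖}
      · rw [indicator_of_mem hτ, abs_of_nonneg hnn]
      · rw [indicator_of_notMem hτ, abs_zero]; exact hnn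
    · refine Eventually.of_forall (fun τ => ?_)
      refine (tendsto_congr' ?_).mpr tendsto_const_nhds
      filter_upwards [eventually_ge_atTop ‖G τ‖] with h hh
      rw [indicator_of_notMem]
      simp [hh]
  have hev : ∀ᶠ h : ℝ in atTop, (∫ τ in Ioc s t,
      ({τ | h < ‖G τ‖}.indicator (fun τ => 2 * ν * ‖G τ‖ ^ 2 + 2 * M * ‖f τ‖)) τ) < ε / 2 := by
    have h1 := htail
    simp only [integral_zero] at h1
    exact h1.eventually (gt_mem_nhds (by linarith))
  obtain ⟨l3, hl3⟩ := eventually_atTop.mp hev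
  refine ⟨max (max l1 l2) (max l3 0), fun h hh => ?_⟩
  have hh1 : l1 ≤ h := (le_max_left _ _).trans ((le_max_left _ _).trans hh)
  have hh2 : l2 ≤ h := (le_max_right _ _).trans ((le_max_left _ _).trans hh)
  have hh3 : l3 ≤ h := (le_max_left _ _).trans ((le_max_right _ _).trans hh)
  have hh4 : 0 ≤ h := (le_max_right _ _).trans ((le_max_right _ _).trans hh)
  have g1 := hl1 h hh1
  have g2 := hl2 h hh2
  have hA := S.good_closed h
  have hs1 : s < τ1 := hτ1.1
  have ht2 : τ2 < t := hτ2.2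
  have h12 : τ1 < τ2 :=
    (hτ1.2.trans_le (min_le_right _ _)).trans_le ((le_max_right _ _).trans hτ2.1.le)
  -- b = first good time after s, a = last good time before t
  have hb := nxt_mem hA g1 hs1.le
  have ha := prv_mem hA g2 ht2.le
  have hbτ : nxt (good W T u h) s ≤ τ1 := nxt_le g1 hs1.le
  have haτ : τ2 ≤ prv (good W T u h) t := le_prv g2 ht2.le
  have hba : nxt (good W T u h) s ≤ prv (good W T u h) t := by linarith
  have hmem : ∀ᵐ τ ∂(volume.restrict (Ioc s t)), (u τ, G τ) ∈ W :=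
    ae_mono (Measure.restrict_mono hsub le_rfl) S.memW
  have hbr := defect_bridge2 S (h := h) h0 hT hb.2 hba ha.2 ha.1 hb.1
    (fun x hx hxg => by
      have := nxt_le hxg hx.1.le
      linarith [hx.2])
    (fun x hx hxg => by
      have := le_prv hxg hx.2.le
      linarith [hx.1]) (hκi h) (hκ0 h) (by
      have e1 := ae_mono (Measure.restrict_mono (sdiff_subset (s := Ioc s t)
        (t := good W T u h)) le_rfl) (hκ h hh4)
      have e2 := ae_mono (Measure.restrict_mono (sdiff_subset (s := Ioc s t)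
        (t := good W T u h)) le_rfl) hmem
      filter_upwards [e1, e2, ae_restrict_mem (measurableSet_Ioc.diff hA.measurableSet)]
        with τ k1 k2 k3
      refine k1 ?_
      by_contra hcon
      exact k3.2 ⟨Ioc_subset_Icc_self (hsub k3.1), G τ, not_lt.mp hcon, k2⟩)
  have p1 : |⟪u (nxt (good W T u h) s) - u s, u s⟫_ℝ| < ε / 2 := by
    have := hw1 (x := nxt (good W T u h) s) hb.1.1 (by
      rw [Real.dist_eq, abs_lt]
      have h3 := hτ1.2.trans_le (min_le_left _ _)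
      constructor <;> linarith [hb.2])
    rw [Real.dist_eq] at this
    rwa [inner_sub_left]
  have p2 : |⟪u (prv (good W T u h) t) - u t, u t⟫_ℝ| < ε / 2 := by
    have := hw2 (x := prv (good W T u h) t) ha.1.1 (by
      rw [Real.dist_eq, abs_lt]
      have h3 := (le_max_left _ _).trans_lt hτ2.1
      constructor <;> linarith [ha.2])
    rw [Real.dist_eq] at this
    rwa [inner_sub_left]
  -- the weight integral
  have hwint : IntegrableOn (wk ν M h (κ h) G f) (Ioc s t) volume :=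
    wk_int S h h0 hT subset_rfl (hκi h)
  have hint : IntegrableOn (fun τ => 2 * ν * ‖G τ‖ ^ 2 + 2 * M * ‖f τ‖) (Ioc s t) volume :=
    IntegrableOn.mono_set ((S.G2.const_mul (2 * ν)).add (S.fint.norm.const_mul (2 * M))) hsub
  have hset : NullMeasurableSet {τ | h < ‖G τ‖} (volume.restrict (Ioc s t)) :=
    nullMeasurableSet_lt aemeasurable_const
      (S.Gmeas.mono_measure (Measure.restrict_mono hsub le_rfl)).norm.aemeasurable
  have hfin : (∫ τ in Ioc s t \ good W T u h, wk ν M h (κ h) G f τ)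
      ≤ (∫ τ in Ioc s t ∩ {τ | h < ‖G τ‖}, κ h τ) + ∫ τ in Ioc s t,
      ({τ | h < ‖G τ‖}.indicator (fun τ => 2 * ν * ‖G τ‖ ^ 2 + 2 * M * ‖f τ‖)) τ := by
    have e1 : (∫ τ in Ioc s t \ good W T u h, wk ν M h (κ h) G f τ)
        = ∫ τ in Ioc s t, (good W T u h)ᶜ.indicator (wk ν M h (κ h) G f) τ := by
      rw [setIntegral_indicator hA.measurableSet.compl]
      rfl
    have e2 : (∫ τ in Ioc s t ∩ {τ | h < ‖G τ‖}, κ h τ)
        = ∫ τ in Ioc s t, ({τ | h < ‖G τ‖}.indicator (fun τ => κ h τ)) τ := by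
      rw [integral_indicator₀ hset, Measure.restrict_restrict₀ hset, inter_comm]
    rw [e1, e2, ← integral_add ((hκi h).indicator₀ hset) (hint.indicator₀ hset)]
    refine integral_mono_ae (hwint.indicator hA.measurableSet.compl)
      (((hκi h).indicator₀ hset).add (hint.indicator₀ hset)) ?_
    filter_upwards [hmem, ae_restrict_mem measurableSet_Ioc] with τ k1 k2
    by_cases hτ : h < ‖G τ‖
    · have hτ' : τ ∈ {τ | h < ‖G τ‖} := hτ
      rw [indicator_of_mem hτ', indicator_of_mem hτ']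
      have hnn : 0 ≤ wk ν M h (κ h) G f τ := by
        unfold wk
        have n1 := hκ0 h τ
        have n2 : 0 ≤ ν * h * ‖G τ‖ := mul_nonneg (mul_nonneg S.ν0 hh4) (norm_nonneg _)
        have n3 : 0 ≤ 2 * M * ‖f τ‖ := mul_nonneg (mul_nonneg (by norm_num) S.M0) (norm_nonneg _)
        have n4 : 0 ≤ ν * ‖G τ‖ ^ 2 := mul_nonneg S.ν0 (by positivity)
        positivity
      refine (indicator_le_self' (fun _ _ => hnn) τ).trans ?_
      unfold wk
      have n2 : ν * h * ‖G τ‖ ≤ ν * ‖G τ‖ ^ 2 := by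
        have := mul_le_mul_of_nonneg_right hτ.le (norm_nonneg (G τ))
        have := mul_le_mul_of_nonneg_left this S.ν0
        nlinarith
      linarith
    · have hg : τ ∈ good W T u h :=
        ⟨Ioc_subset_Icc_self (hsub k2), G τ, not_lt.mp hτ, k1⟩
      have hg' : τ ∉ (good W T u h)ᶜ := fun hc => hc hg
      have hτ' : τ ∉ {τ | h < ‖G τ‖} := hτ
      rw [indicator_of_notMem hg', indicator_of_notMem hτ', indicator_of_notMem hτ']
      simp
  have := hl3 h hh3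
  linarith

end Pool.Agent.Helper30.EJ
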