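import Mathlib

/-!
Real functions whose increments are bounded by the square root of the oscillation of a field times
the increments of a monotone function are sums of their jumps.
-/

set_option linter.unusedSectionVars false
set_option autoImplicit false

open MeasureTheory Set Filter Topology Function
open scoped ENNReal

namespace Pool.Agent.Helper30.EJ

variable {H : Type*} [NormedAddCommGroup H]

/-- the hypotheses -/
structure Hyp (c B : ℝ) (L D : ℝ → ℝ) (u : ℝ → H) : Prop where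
  c0 : 0 ≤ c
  mono : Monotone L
  bdd : ∀ x y, ‖u x - u y‖ ≤ B
  key : ∀ s t, s ≤ t → ∀ ω, (∀ x ∈ Icc s t, ∀ y ∈ Icc s t, ‖u x - u y‖ ≤ ω) →
    |D t - D s| ≤ c * Real.sqrt ω * (L t - L s)
  lsc : ∀ t, Tendsto (fun s => ‖u s - u t‖ ^ 2 - 2 * (D t - D s)) (𝓝 t) (𝓝 0)

/-- the jump from the left -/
noncomputable def ja (D : ℝ → ℝ) (t : ℝ) : ℝ := D t - leftLim D t

/-- the jump from the right -/
noncomputable def jb (D : ℝ → ℝ) (t : ℝ) : ℝ := D t - rightLim D t

namespace Hyp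

variable {c B : ℝ} {L D : ℝ → ℝ} {u : ℝ → H}

theorem B0 (h : Hyp c B L D u) : 0 ≤ B := (norm_nonneg _).trans (h.bdd 0 0)

/-- reflection -/
theorem refl (h : Hyp c B L D u) :
    Hyp c B (fun x => -L (-x)) (fun x => D (-x)) (fun x => u (-x)) where
  c0 := h.c0
  mono := fun x y hxy => neg_le_neg (h.mono (neg_le_neg hxy))
  bdd := fun x y => h.bdd _ _
  key := fun s t hst ω hω => by
    have h1 := h.key (-t) (-s) (neg_le_neg hst) ω (fun x hx y hy => by
      have := hω (-x) ⟨by linarith [hx.2], by linarith [hx.1]⟩ (-y)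
        ⟨by linarith [hy.2], by linarith [hy.1]⟩
      simpa using this)
    rw [abs_sub_comm]
    refine h1.trans (le_of_eq ?_)
    ring
  lsc := fun t => by
    have h1 := (h.lsc (-t)).comp (continuous_neg.tendsto t)
    simpa [Function.comp_def] using h1

theorem incr (h : Hyp c B L D u) {s t : ℝ} (hst : s ≤ t) :
    |D t - D s| ≤ c * Real.sqrt B * (L t - L s) :=
  h.key s t hst B fun x _ y _ => h.bdd x y

theorem monoP (h : Hyp c B L D u) : Monotone fun x => D x + c * Real.sqrt B * L x := by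
  intro x y hxy
  have := (abs_le.mp (h.incr hxy)).1
  show D x + c * Real.sqrt B * L x ≤ D y + c * Real.sqrt B * L y
  linarith

theorem monoQ (h : Hyp c B L D u) : Monotone fun x => c * Real.sqrt B * L x := by
  intro x y hxy
  exact mul_le_mul_of_nonneg_left (h.mono hxy) (mul_nonneg h.c0 (Real.sqrt_nonneg _))

theorem tendsto_left (h : Hyp c B L D u) (t : ℝ) : Tendsto D (𝓝[<] t) (𝓝 (leftLim D t)) := by
  have h1 := (h.monoP.tendsto_leftLim t).sub (h.monoQ.tendsto_leftLim t)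
  have h2 : Tendsto D (𝓝[<] t) (𝓝 (leftLim (fun x => D x + c * Real.sqrt B * L x) t
      - leftLim (fun x => c * Real.sqrt B * L x) t)) := by
    refine h1.congr fun x => ?_
    ring
  have h3 := leftLim_eq_of_tendsto (f := D) (a := t) h2
  rw [h3]
  exact h2

theorem tendsto_right (h : Hyp c B L D u) (t : ℝ) : Tendsto D (𝓝[>] t) (𝓝 (rightLim D t)) := by
  have h1 := (h.monoP.tendsto_rightLim t).sub (h.monoQ.tendsto_rightLim t)
  have h2 : Tendsto D (𝓝[>] t) (𝓝 (rightLim (fun x => D x + c * Real.sqrt B * L x) t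
      - rightLim (fun x => c * Real.sqrt B * L x) t)) := by
    refine h1.congr fun x => ?_
    ring
  have h3 := rightLim_eq_of_tendsto (f := D) (a := t) h2
  rw [h3]
  exact h2

theorem nsq_left (h : Hyp c B L D u) (t : ℝ) :
    Tendsto (fun s => ‖u s - u t‖ ^ 2) (𝓝[<] t) (𝓝 (2 * ja D t)) := by
  have h1 := (h.lsc t).mono_left (nhdsWithin_le_nhds (s := Iio t))
  have h2 := ((tendsto_const_nhds (x := D t)).sub (h.tendsto_left t)).const_mul 2
  have h3 := h1.add h2
  rw [zero_add] at h3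
  refine h3.congr fun s => ?_
  ring

theorem nsq_right (h : Hyp c B L D u) (t : ℝ) :
    Tendsto (fun s => ‖u s - u t‖ ^ 2) (𝓝[>] t) (𝓝 (2 * jb D t)) := by
  have h1 := (h.lsc t).mono_left (nhdsWithin_le_nhds (s := Ioi t))
  have h2 := ((tendsto_const_nhds (x := D t)).sub (h.tendsto_right t)).const_mul 2
  have h3 := h1.add h2
  rw [zero_add] at h3
  refine h3.congr fun s => ?_
  ring

theorem ja0 (h : Hyp c B L D u) (t : ℝ) : 0 ≤ ja D t := by
  have := ge_of_tendsto' (h.nsq_left t) fun s => sq_nonneg ‖u s - u t‖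
  linarith

theorem jb0 (h : Hyp c B L D u) (t : ℝ) : 0 ≤ jb D t := by
  have := ge_of_tendsto' (h.nsq_right t) fun s => sq_nonneg ‖u s - u t‖
  linarith

theorem ja_le (h : Hyp c B L D u) (t : ℝ) : 2 * ja D t ≤ B ^ 2 :=
  le_of_tendsto' (h.nsq_left t) fun s => pow_le_pow_left₀ (norm_nonneg _) (h.bdd s t) 2

theorem jb_le (h : Hyp c B L D u) (t : ℝ) : 2 * jb D t ≤ B ^ 2 :=
  le_of_tendsto' (h.nsq_right t) fun s => pow_le_pow_left₀ (norm_nonneg _) (h.bdd s t) 2

/-- the jump bound, from the left -/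
theorem jump_left (h : Hyp c B L D u) (t : ℝ) :
    ja D t ≤ c * Real.sqrt (2 * Real.sqrt (2 * ja D t)) * (L t - leftLim L t) := by
  have step : ∀ ε > 0, ja D t
      ≤ c * Real.sqrt (2 * Real.sqrt (2 * ja D t + ε)) * (L t - leftLim L t) := by
    intro ε hε
    have h1 : ∀ᶠ s in 𝓝[<] t, ‖u s - u t‖ ^ 2 < 2 * ja D t + ε :=
      (h.nsq_left t).eventually (gt_mem_nhds (by linarith))
    obtain ⟨δ, hδ, hδ'⟩ := (mem_nhdsLT_iff_exists_Ioo_subset).mp h1
    have h2 : Tendsto (fun s => |D t - D s|) (𝓝[<] t) (𝓝 |ja D t|) :=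
      ((tendsto_const_nhds (x := D t)).sub (h.tendsto_left t)).abs
    have h3 : Tendsto (fun s => c * Real.sqrt (2 * Real.sqrt (2 * ja D t + ε)) * (L t - L s))
        (𝓝[<] t) (𝓝 (c * Real.sqrt (2 * Real.sqrt (2 * ja D t + ε)) * (L t - leftLim L t))) :=
      ((tendsto_const_nhds (x := L t)).sub (h.mono.tendsto_leftLim t)).const_mul _
    have h4 := le_of_tendsto_of_tendsto h2 h3 (by
      filter_upwards [Ioo_mem_nhdsLT hδ] with s hs
      refine h.key s t hs.2.le _ ?_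
      have h5 : ∀ x ∈ Icc s t, ‖u x - u t‖ ≤ Real.sqrt (2 * ja D t + ε) := by
        intro x hx
        rcases hx.2.eq_or_lt with e | e
        · rw [e, sub_self, norm_zero]
          exact Real.sqrt_nonneg _
        · have := hδ' ⟨lt_of_lt_of_le hs.1 hx.1, e⟩
          exact Real.le_sqrt_of_sq_le (le_of_lt this)
      intro x hx y hy
      have e : u x - u y = (u x - u t) - (u y - u t) := by abel
      rw [e]
      refine (norm_sub_le _ _).trans ?_
      have := h5 x hx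
      have := h5 y hy
      linarith)
    exact (le_abs_self _).trans h4
  have hc : Continuous fun ε : ℝ =>
      c * Real.sqrt (2 * Real.sqrt (2 * ja D t + ε)) * (L t - leftLim L t) := by fun_prop
  have h6 : Tendsto (fun ε : ℝ =>
      c * Real.sqrt (2 * Real.sqrt (2 * ja D t + ε)) * (L t - leftLim L t)) (𝓝[>] 0)
      (𝓝 (c * Real.sqrt (2 * Real.sqrt (2 * ja D t + 0)) * (L t - leftLim L t))) :=
    (hc.tendsto 0).mono_left nhdsWithin_le_nhds
  rw [add_zero] at h6
  refine ge_of_tendsto h6 ?_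
  filter_upwards [self_mem_nhdsWithin] with ε hε
  exact step ε hε

theorem rpow_of_jump {a c l : ℝ} (ha : 0 ≤ a) (hc : 0 ≤ c) (hl : 0 ≤ l)
    (h : a ≤ c * Real.sqrt (2 * Real.sqrt (2 * a)) * l) :
    a ^ (3 / 4 : ℝ) ≤ c * (2 : ℝ) ^ (3 / 4 : ℝ) * l := by
  rcases ha.eq_or_lt with rfl | ha'
  · rw [Real.zero_rpow (by norm_num)]
    positivity
  have e1 : Real.sqrt (2 * Real.sqrt (2 * a)) = (2 : ℝ) ^ (3 / 4 : ℝ) * a ^ (1 / 4 : ℝ) := by
    rw [Real.sqrt_eq_rpow, Real.sqrt_eq_rpow, Real.mul_rpow (by norm_num) (by positivity),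
      ← Real.rpow_mul (by positivity), Real.mul_rpow (by norm_num) ha, ← mul_assoc,
      ← Real.rpow_add (by norm_num)]
    norm_num
  have e2 : a = a ^ (3 / 4 : ℝ) * a ^ (1 / 4 : ℝ) := by
    rw [← Real.rpow_add ha']
    norm_num
  have h4 : 0 < a ^ (1 / 4 : ℝ) := Real.rpow_pos_of_pos ha' _
  rw [e1] at h
  have h5 : a ^ (3 / 4 : ℝ) * a ^ (1 / 4 : ℝ) ≤ (c * (2 : ℝ) ^ (3 / 4 : ℝ) * l) * a ^ (1 / 4 : ℝ) := by
    rw [← e2]
    refine h.trans (le_of_eq ?_)
    ring
  exact le_of_mul_le_mul_right h5 h4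

theorem ja_rpow (h : Hyp c B L D u) (t : ℝ) :
    ja D t ^ (3 / 4 : ℝ) ≤ c * (2 : ℝ) ^ (3 / 4 : ℝ) * (L t - leftLim L t) :=
  rpow_of_jump (h.ja0 t) h.c0 (sub_nonneg.mpr (h.mono.leftLim_le le_rfl)) (h.jump_left t)

theorem leftLim_refl {D : ℝ → ℝ} {t l : ℝ} (hD : Tendsto D (𝓝[>] t) (𝓝 l)) :
    leftLim (fun x => D (-x)) (-t) = l := by
  refine leftLim_eq_of_tendsto ?_
  refine hD.comp ?_
  refine tendsto_nhdsWithin_iff.mpr ⟨?_, ?_⟩
  · have := (continuous_neg (G := ℝ)).tendsto (-t)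
    rw [neg_neg] at this
    exact this.mono_left nhdsWithin_le_nhds
  · filter_upwards [self_mem_nhdsWithin] with x hx
    have : x < -t := hx
    show t < -x
    linarith

theorem jb_rpow (h : Hyp c B L D u) (t : ℝ) :
    jb D t ^ (3 / 4 : ℝ) ≤ c * (2 : ℝ) ^ (3 / 4 : ℝ) * (rightLim L t - L t) := by
  have h1 := h.refl.ja_rpow (-t)
  have e1 : ja (fun x => D (-x)) (-t) = jb D t := by
    unfold ja jb
    rw [leftLim_refl (h.tendsto_right t)]
    simp only [neg_neg]
  have e2 : leftLim (fun x => -L (-x)) (-t) = -rightLim L t := by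
    have := leftLim_refl (D := fun x => -L x) (t := t) (l := -rightLim L t)
      (h.mono.tendsto_rightLim t).neg
    exact this
  rw [e1, e2, neg_neg] at h1
  refine h1.trans (le_of_eq ?_)
  ring

/-- the sum of the jumps of a monotone function -/
theorem tsum_jumps {L : ℝ → ℝ} (hL : Monotone L) {p q : ℝ} (hp : ∀ x, p ≤ L x) (hq : ∀ x, L x ≤ q) :
    ∑' t, ENNReal.ofReal (rightLim L t - leftLim L t) ≤ ENNReal.ofReal (q - p) := by
  have h1 := tsum_meas_le_meas_iUnion_of_disjoint (volume : Measure ℝ)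
    (As := fun t => Ioo (leftLim L t) (rightLim L t)) (fun _ => measurableSet_Ioo) (by
      have key : ∀ s t, s < t → Disjoint (Ioo (leftLim L s) (rightLim L s))
          (Ioo (leftLim L t) (rightLim L t)) := by
        intro s t hst
        rw [Set.disjoint_left]
        intro x hx hx'
        have := hL.rightLim_le_leftLim hst
        linarith [hx.2, hx'.1]
      intro s t hst
      rcases lt_or_gt_of_ne hst with h | h
      · exact key s t h
      · exact (key t s h).symm)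
  simp only [Real.volume_Ioo] at h1
  refine h1.trans ?_
  have h2 : (⋃ t, Ioo (leftLim L t) (rightLim L t)) ⊆ Icc p q := by
    intro x hx
    rw [mem_iUnion] at hx
    obtain ⟨t, ht⟩ := hx
    have a1 : p ≤ leftLim L t := (hp (t - 1)).trans (hL.le_leftLim (by linarith))
    have a2 : rightLim L t ≤ q := (hL.rightLim_le (show t < t + 1 by linarith)).trans (hq _)
    exact ⟨a1.trans ht.1.le, ht.2.le.trans a2⟩
  refine (measure_mono h2).trans ?_
  rw [Real.volume_Icc]

/-- the sum of the powers of the jumps -/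
theorem tsum_rpow (h : Hyp c B L D u) {p q : ℝ} (hp : ∀ x, p ≤ L x) (hq : ∀ x, L x ≤ q) :
    ∑' t, ENNReal.ofReal (ja D t ^ (3 / 4 : ℝ) + jb D t ^ (3 / 4 : ℝ))
      ≤ ENNReal.ofReal (c * (2 : ℝ) ^ (3 / 4 : ℝ) * (q - p)) := by
  have hc : 0 ≤ c * (2 : ℝ) ^ (3 / 4 : ℝ) := mul_nonneg h.c0 (by positivity)
  calc ∑' t, ENNReal.ofReal (ja D t ^ (3 / 4 : ℝ) + jb D t ^ (3 / 4 : ℝ))
      ≤ ∑' t, ENNReal.ofReal (c * (2 : ℝ) ^ (3 / 4 : ℝ))
          * ENNReal.ofReal (rightLim L t - leftLim L t) := by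
        refine ENNReal.tsum_le_tsum fun t => ?_
        rw [← ENNReal.ofReal_mul hc]
        refine ENNReal.ofReal_le_ofReal ?_
        have := h.ja_rpow t
        have := h.jb_rpow t
        linarith
    _ = ENNReal.ofReal (c * (2 : ℝ) ^ (3 / 4 : ℝ))
          * ∑' t, ENNReal.ofReal (rightLim L t - leftLim L t) := ENNReal.tsum_mul_left
    _ ≤ ENNReal.ofReal (c * (2 : ℝ) ^ (3 / 4 : ℝ)) * ENNReal.ofReal (q - p) :=
        mul_le_mul_right (tsum_jumps h.mono hp hq) _
    _ = _ := (ENNReal.ofReal_mul hc).symm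

theorem summable_rpow (h : Hyp c B L D u) {p q : ℝ} (hp : ∀ x, p ≤ L x) (hq : ∀ x, L x ≤ q) :
    Summable fun t => ja D t ^ (3 / 4 : ℝ) + jb D t ^ (3 / 4 : ℝ) := by
  have h1 := (h.tsum_rpow hp hq).trans_lt ENNReal.ofReal_lt_top
  have h2 : ∀ t, 0 ≤ ja D t ^ (3 / 4 : ℝ) + jb D t ^ (3 / 4 : ℝ) := fun t =>
    add_nonneg (Real.rpow_nonneg (h.ja0 t) _) (Real.rpow_nonneg (h.jb0 t) _)
  have h3 := ENNReal.summable_toReal h1.ne
  refine h3.congr fun t => ?_
  rw [ENNReal.toReal_ofReal (h2 t)]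

theorem le_of_rpow {a ε : ℝ} (ha : 0 ≤ a) (haε : a ≤ ε ^ 4) (hε : 0 ≤ ε) :
    a ≤ ε * a ^ (3 / 4 : ℝ) := by
  rcases ha.eq_or_lt with rfl | ha'
  · rw [Real.zero_rpow (by norm_num), mul_zero]
  have e2 : a = a ^ (1 / 4 : ℝ) * a ^ (3 / 4 : ℝ) := by
    rw [← Real.rpow_add ha']
    norm_num
  have h1 : a ^ (1 / 4 : ℝ) ≤ ε := by
    calc a ^ (1 / 4 : ℝ) ≤ (ε ^ 4) ^ (1 / 4 : ℝ) := Real.rpow_le_rpow ha haε (by norm_num)
      _ = ε := by
        rw [← Real.rpow_natCast, ← Real.rpow_mul hε]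
        norm_num
  calc a = a ^ (1 / 4 : ℝ) * a ^ (3 / 4 : ℝ) := e2
    _ ≤ ε * a ^ (3 / 4 : ℝ) := by gcongr

end Hyp

end Pool.Agent.Helper30.EJ
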