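import Mathlib
import Pool.Agent.Helper30.EJ.Real

/-!
Real functions whose increments are bounded by the square root of the oscillation of a field times
the increments of a monotone function are sums of their jumps: the representation.
-/

set_option linter.unusedSectionVars false
set_option autoImplicit false

open MeasureTheory Set Filter Topology Function
open scoped ENNReal

namespace Pool.Agent.Helper30.EJ

/-- the sum of the weights of the points `≤ t` -/
noncomputable def SA (w : ℝ → ℝ) (t : ℝ) : ℝ := ∑' τ, (Iic t).indicator w τ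

/-- the sum of the weights of the points `< t` -/
noncomputable def SB (w : ℝ → ℝ) (t : ℝ) : ℝ := ∑' τ, (Iio t).indicator w τ

section weights

variable {w : ℝ → ℝ}

theorem SA_sub (hw : Summable w) {s t : ℝ} (hst : s ≤ t) :
    SA w t - SA w s = ∑' τ, (Ioc s t).indicator w τ := by
  unfold SA
  rw [← (hw.indicator (Iic t)).tsum_sub (hw.indicator (Iic s))]
  refine tsum_congr fun τ => ?_
  by_cases h1 : τ ≤ s
  · have h2 : τ ≤ t := h1.trans hst
    rw [indicator_of_mem (show τ ∈ Iic t from h2), indicator_of_mem (show τ ∈ Iic s from h1),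
      indicator_of_notMem (fun h : τ ∈ Ioc s t => absurd h.1 (not_lt.mpr h1)), sub_self]
  · rw [indicator_of_notMem (show τ ∉ Iic s from h1), sub_zero]
    by_cases h2 : τ ≤ t
    · rw [indicator_of_mem (show τ ∈ Iic t from h2),
        indicator_of_mem (show τ ∈ Ioc s t from ⟨not_le.mp h1, h2⟩)]
    · rw [indicator_of_notMem (show τ ∉ Iic t from h2),
        indicator_of_notMem (fun h : τ ∈ Ioc s t => h2 h.2)]

theorem SB_sub (hw : Summable w) {s t : ℝ} (hst : s ≤ t) :
    SB w t - SB w s = ∑' τ, (Ico s t).indicator w τ := by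
  unfold SB
  rw [← (hw.indicator (Iio t)).tsum_sub (hw.indicator (Iio s))]
  refine tsum_congr fun τ => ?_
  by_cases h1 : τ < s
  · have h2 : τ < t := h1.trans_le hst
    rw [indicator_of_mem (show τ ∈ Iio t from h2), indicator_of_mem (show τ ∈ Iio s from h1),
      indicator_of_notMem (fun h : τ ∈ Ico s t => absurd h.1 (not_le.mpr h1)), sub_self]
  · rw [indicator_of_notMem (show τ ∉ Iio s from h1), sub_zero]
    by_cases h2 : τ < t
    · rw [indicator_of_mem (show τ ∈ Iio t from h2),
        indicator_of_mem (show τ ∈ Ico s t from ⟨not_lt.mp h1, h2⟩)]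
    · rw [indicator_of_notMem (show τ ∉ Iio t from h2),
        indicator_of_notMem (fun h : τ ∈ Ico s t => h2 h.2)]

theorem SA_mono (hw : Summable w) (h0 : ∀ τ, 0 ≤ w τ) : Monotone (SA w) := by
  intro s t hst
  have := SA_sub hw hst
  have h1 : 0 ≤ ∑' τ, (Ioc s t).indicator w τ := tsum_nonneg fun τ => indicator_nonneg (fun x _ => h0 x) τ
  linarith

theorem SB_mono (hw : Summable w) (h0 : ∀ τ, 0 ≤ w τ) : Monotone (SB w) := by
  intro s t hst
  have := SB_sub hw hst
  have h1 : 0 ≤ ∑' τ, (Ico s t).indicator w τ := tsum_nonneg fun τ => indicator_nonneg (fun x _ => h0 x) τ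
  linarith

theorem tsum_ind_Iic_sub (hw : Summable w) (t : ℝ) : SA w t = SB w t + w t := by
  unfold SA SB
  have e : ∀ τ, (Iic t).indicator w τ = (Iio t).indicator w τ + (if τ = t then w t else 0) := by
    intro τ
    rcases lt_trichotomy τ t with h | h | h
    · rw [indicator_of_mem (show τ ∈ Iic t from h.le), indicator_of_mem (show τ ∈ Iio t from h),
        if_neg h.ne, add_zero]
    · rw [h, indicator_of_mem (show t ∈ Iic t from le_refl t),
        indicator_of_notMem (fun h : t ∈ Iio t => lt_irrefl t h), if_pos rfl, zero_add]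
    · rw [indicator_of_notMem (fun h' : τ ∈ Iic t => absurd h' (not_le.mpr h)),
        indicator_of_notMem (fun h' : τ ∈ Iio t => absurd h' (not_lt.mpr h.le)),
        if_neg h.ne', add_zero]
  simp_rw [e]
  rw [(hw.indicator (Iio t)).tsum_add (summable_of_ne_finset_zero (s := {t}) (by
    intro b hb
    rw [Finset.mem_singleton] at hb
    exact if_neg hb)), tsum_ite_eq]

theorem ind_bound (h0 : ∀ τ, 0 ≤ w τ) (S : Set ℝ) (τ : ℝ) : ‖S.indicator w τ‖ ≤ w τ := by
  rw [Real.norm_eq_abs, abs_of_nonneg (indicator_nonneg (fun x _ => h0 x) τ)]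
  exact indicator_le_self' (fun _ _ => h0 τ) τ

theorem tendsto_ind {F : Filter ℝ} {S : ℝ → Set ℝ} {S0 : Set ℝ} (hw : Summable w)
    (h0 : ∀ τ, 0 ≤ w τ) (hS : ∀ τ, ∀ᶠ s in F, (τ ∈ S s ↔ τ ∈ S0)) :
    Tendsto (fun s => ∑' τ, (S s).indicator w τ) F (𝓝 (∑' τ, S0.indicator w τ)) := by
  refine tendsto_tsum_of_dominated_convergence hw ?_ ?_
  · intro τ
    refine (tendsto_congr' ?_).mpr tendsto_const_nhds
    filter_upwards [hS τ] with s hs
    by_cases h : τ ∈ S0
    · rw [indicator_of_mem h, indicator_of_mem (hs.mpr h)]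
    · rw [indicator_of_notMem h, indicator_of_notMem (fun h' => h (hs.mp h'))]
  · exact Eventually.of_forall fun s τ => ind_bound h0 _ τ

theorem SA_left (hw : Summable w) (h0 : ∀ τ, 0 ≤ w τ) (t : ℝ) :
    Tendsto (SA w) (𝓝[<] t) (𝓝 (SB w t)) := by
  refine tendsto_ind hw h0 fun τ => ?_
  rcases lt_or_ge τ t with h | h
  · filter_upwards [Ioo_mem_nhdsLT h] with s hs
    exact ⟨fun _ => h, fun _ => hs.1.le⟩
  · filter_upwards [self_mem_nhdsWithin] with s hs
    have hs' : s < t := hs
    exact ⟨fun h' => absurd (show τ ≤ s from h') (not_le.mpr (hs'.trans_le h)),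
      fun h' => absurd (show τ < t from h') (not_lt.mpr h)⟩

theorem SB_left (hw : Summable w) (h0 : ∀ τ, 0 ≤ w τ) (t : ℝ) :
    Tendsto (SB w) (𝓝[<] t) (𝓝 (SB w t)) := by
  refine tendsto_ind hw h0 fun τ => ?_
  rcases lt_or_ge τ t with h | h
  · filter_upwards [Ioo_mem_nhdsLT h] with s hs
    exact ⟨fun _ => h, fun _ => hs.1⟩
  · filter_upwards [self_mem_nhdsWithin] with s hs
    have hs' : s < t := hs
    exact ⟨fun h' => absurd (show τ < s from h') (not_lt.mpr (hs'.le.trans h)),
      fun h' => absurd (show τ < t from h') (not_lt.mpr h)⟩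

theorem SA_right (hw : Summable w) (h0 : ∀ τ, 0 ≤ w τ) (t : ℝ) :
    Tendsto (SA w) (𝓝[>] t) (𝓝 (SA w t)) := by
  refine tendsto_ind hw h0 fun τ => ?_
  rcases le_or_gt τ t with h | h
  · filter_upwards [self_mem_nhdsWithin] with s hs
    have hs' : t < s := hs
    exact ⟨fun _ => h, fun _ => h.trans hs'.le⟩
  · filter_upwards [Ioo_mem_nhdsGT h] with s hs
    exact ⟨fun h' => absurd (show τ ≤ s from h') (not_le.mpr hs.2),
      fun h' => absurd (show τ ≤ t from h') (not_le.mpr h)⟩

theorem SB_right (hw : Summable w) (h0 : ∀ τ, 0 ≤ w τ) (t : ℝ) :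
    Tendsto (SB w) (𝓝[>] t) (𝓝 (SA w t)) := by
  refine tendsto_ind hw h0 fun τ => ?_
  rcases le_or_gt τ t with h | h
  · filter_upwards [self_mem_nhdsWithin] with s hs
    have hs' : t < s := hs
    exact ⟨fun _ => h, fun _ => h.trans_lt hs'⟩
  · filter_upwards [Ioo_mem_nhdsGT h] with s hs
    exact ⟨fun h' => absurd (show τ < s from h') (not_lt.mpr hs.2.le),
      fun h' => absurd (show τ ≤ t from h') (not_le.mpr h)⟩

end weights

variable {H : Type*} [NormedAddCommGroup H]

namespace Hyp

variable {c B : ℝ} {L D : ℝ → ℝ} {u : ℝ → H}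

/-- comparison of the sums of the jumps and of their powers -/
theorem tsum_small {a a3 : ℝ → ℝ} {S : Set ℝ} (ha : Summable a) (h3 : Summable a3) {ε : ℝ}
    (h : ∀ τ ∈ S, a τ ≤ ε * a3 τ) :
    ∑' τ, S.indicator a τ ≤ ε * ∑' τ, S.indicator a3 τ := by
  rw [← tsum_mul_left]
  refine (ha.indicator S).tsum_le_tsum (fun τ => ?_) ((h3.indicator S).mul_left ε)
  by_cases hτ : τ ∈ S
  · rw [indicator_of_mem hτ, indicator_of_mem hτ]
    exact h τ hτ
  · rw [indicator_of_notMem hτ, indicator_of_notMem hτ, mul_zero]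

/-- small jumps near a point without a jump -/
theorem small_near {a : ℝ → ℝ} (ha : Summable a) {t : ℝ} (ht : a t = 0)
    {η : ℝ} (hη : 0 < η) : ∀ᶠ τ in 𝓝 t, a τ ≤ η := by
  have h1 := ha.tendsto_cofinite_zero
  have h2 : ∀ᶠ τ in cofinite, a τ < η := h1.eventually (gt_mem_nhds hη)
  have h3 : {τ | ¬ a τ < η}.Finite := h2
  have h4 : {τ | ¬ a τ < η}ᶜ ∈ 𝓝 t := h3.isClosed.isOpen_compl.mem_nhds (by
    intro h
    exact h (by rw [ht]; exact hη))
  filter_upwards [h4] with τ hτ
  have : ¬ ¬ a τ < η := hτ
  exact (not_not.mp this).le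

theorem representation (h : Hyp c B L D u) {p q : ℝ} (hp : ∀ x, p ≤ L x) (hq : ∀ x, L x ≤ q) :
    Summable (ja D) ∧ Summable (jb D) ∧ ∀ s t, D t - D s
      = (SA (ja D) t - SB (jb D) t) - (SA (ja D) s - SB (jb D) s) := by
  have hB := h.B0
  set a := ja D with ha
  set b := jb D with hb
  set a3 : ℝ → ℝ := fun t => a t ^ (3 / 4 : ℝ) with ha3
  set b3 : ℝ → ℝ := fun t => b t ^ (3 / 4 : ℝ) with hb3
  have a0 : ∀ t, 0 ≤ a t := h.ja0
  have b0 : ∀ t, 0 ≤ b t := h.jb0
  have a30 : ∀ t, 0 ≤ a3 t := fun t => Real.rpow_nonneg (a0 t) _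
  have b30 : ∀ t, 0 ≤ b3 t := fun t => Real.rpow_nonneg (b0 t) _
  have hs := h.summable_rpow hp hq
  have sa3 : Summable a3 := Summable.of_nonneg_of_le a30 (fun t => by
    have := b30 t
    show a3 t ≤ a3 t + b3 t
    linarith) hs
  have sb3 : Summable b3 := Summable.of_nonneg_of_le b30 (fun t => by
    have := a30 t
    show b3 t ≤ a3 t + b3 t
    linarith) hs
  have hR : ∀ x : ℝ, 0 ≤ x → 2 * x ≤ B ^ 2 → x ≤ (1 + B) * x ^ (3 / 4 : ℝ) := by
    intro x hx hxB
    refine le_of_rpow hx ?_ (by linarith)
    have h1 : B ^ 2 ≤ (1 + B) ^ 4 := by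
      have : 0 ≤ B ^ 3 := by positivity
      have : 0 ≤ B ^ 4 := by positivity
      nlinarith
    nlinarith
  have sa : Summable a := Summable.of_nonneg_of_le a0 (fun t => hR _ (a0 t) (h.ja_le t))
    (sa3.mul_left (1 + B))
  have sb : Summable b := Summable.of_nonneg_of_le b0 (fun t => hR _ (b0 t) (h.jb_le t))
    (sb3.mul_left (1 + B))
  refine ⟨sa, sb, ?_⟩
  set E : ℝ → ℝ := fun t => D t - (SA a t - SB b t) with hE
  have hEc : Continuous E := by
    rw [continuous_iff_continuousAt]
    intro t
    rw [continuousAt_iff_continuous_left'_right']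
    constructor
    · have h1 := (h.tendsto_left t).sub ((SA_left sa a0 t).sub (SB_left sb b0 t))
      have e : leftLim D t - (SB a t - SB b t) = E t := by
        have := tsum_ind_Iic_sub sa t
        have e2 : a t = D t - leftLim D t := rfl
        simp only [hE]
        rw [this]
        linarith
      rw [e] at h1
      exact h1
    · have h1 := (h.tendsto_right t).sub ((SA_right sa a0 t).sub (SB_right sb b0 t))
      have e : rightLim D t - (SA a t - SA b t) = E t := by
        have := tsum_ind_Iic_sub sb t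
        have e2 : b t = D t - rightLim D t := rfl
        simp only [hE]
        rw [this]
        linarith
      rw [e] at h1
      exact h1
  -- the points without jumps
  set R : Set ℝ := {t | a t = 0 ∧ b t = 0} with hRdef
  have hRc : (Rᶜ).Countable := by
    refine (sa.countable_support.union sb.countable_support).mono ?_
    intro t ht
    by_contra hcon
    rw [mem_union, not_or, notMem_support, notMem_support] at hcon
    exact ht hcon
  -- the reparametrisation
  set X : ℝ → ℝ := fun t => t + (L t + SA a3 t + SB b3 t) with hX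
  have hXm : Monotone fun t => L t + SA a3 t + SB b3 t := fun s t hst =>
    add_le_add (add_le_add (h.mono hst) (SA_mono sa3 a30 hst)) (SB_mono sb3 b30 hst)
  have hXs : StrictMono X := fun s t hst => add_lt_add_of_lt_of_le hst (hXm hst.le)
  have hXd : ∀ s t, |t - s| ≤ |X t - X s| := by
    have key : ∀ s t, s ≤ t → |t - s| ≤ |X t - X s| := by
      intro s t hst
      have h1 := hXm hst
      simp only at h1
      rw [abs_of_nonneg (by linarith), abs_of_nonneg (by simp only [hX]; linarith)]
      simp only [hX]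
      linarith
    intro s t
    rcases le_total s t with hst | hst
    · exact key s t hst
    · rw [abs_sub_comm t s, abs_sub_comm (X t) (X s)]
      exact key t s hst
  -- the local estimate
  have hloc : ∀ t ∈ R, ∀ ε > 0, ∀ᶠ s in 𝓝 t, |E s - E t| ≤ ε * |X s - X t| := by
    intro t ht ε hε
    obtain ⟨η, hη0, hη1, hη2⟩ : ∃ η > 0, η ≤ ε / 3 ∧ c * Real.sqrt (2 * η) ≤ ε / 3 := by
      have hc : Continuous fun η : ℝ => c * Real.sqrt (2 * η) := by fun_prop
      have h1 : Tendsto (fun η : ℝ => c * Real.sqrt (2 * η)) (𝓝[>] 0)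
          (𝓝 (c * Real.sqrt (2 * 0))) := (hc.tendsto 0).mono_left nhdsWithin_le_nhds
      rw [mul_zero, Real.sqrt_zero, mul_zero] at h1
      have h2 : ∀ᶠ η in 𝓝[>] (0 : ℝ), c * Real.sqrt (2 * η) < ε / 3 :=
        h1.eventually (gt_mem_nhds (by linarith))
      have h3 : ∀ᶠ η in 𝓝[>] (0 : ℝ), η < ε / 3 :=
        nhdsWithin_le_nhds (gt_mem_nhds (by linarith))
      obtain ⟨η, h4, h5, h6⟩ := (h2.and (h3.and self_mem_nhdsWithin)).exists
      exact ⟨η, h6, h5.le, h4.le⟩
    have n1 : ∀ᶠ s in 𝓝 t, ‖u s - u t‖ ≤ η := by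
      have l1 : Tendsto (fun s => ‖u s - u t‖ ^ 2) (𝓝 t) (𝓝 0) := by
        have l := h.nsq_left t
        have r := h.nsq_right t
        have e1 : ja D t = 0 := ht.1
        have e2 : jb D t = 0 := ht.2
        rw [e1, mul_zero] at l
        rw [e2, mul_zero] at r
        have h5 : ContinuousAt (fun s => ‖u s - u t‖ ^ 2) t := by
          rw [continuousAt_iff_continuous_left'_right']
          constructor
          · show Tendsto _ _ (𝓝 _)
            simpa using l
          · show Tendsto _ _ (𝓝 _)
            simpa using r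
        have h6 := h5.tendsto
        simpa using h6
      have h7 : ∀ᶠ s in 𝓝 t, ‖u s - u t‖ ^ 2 < η ^ 2 :=
        l1.eventually (gt_mem_nhds (by positivity))
      filter_upwards [h7] with s hs
      exact (pow_lt_pow_iff_left₀ (norm_nonneg _) hη0.le (by norm_num)).mp hs |>.le
    have n2 := small_near sa ht.1 (η := η ^ 4) (by positivity)
    have n3 := small_near sb ht.2 (η := η ^ 4) (by positivity)
    obtain ⟨δ, hδ, hδ'⟩ := Metric.eventually_nhds_iff_ball.mp (n1.and (n2.and n3))
    have hball : ∀ x, |x - t| < δ → ‖u x - u t‖ ≤ η ∧ a x ≤ η ^ 4 ∧ b x ≤ η ^ 4 := by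
      intro x hx
      exact hδ' x (by rwa [Metric.mem_ball, Real.dist_eq])
    have key : ∀ x y, x ≤ y → (∀ z ∈ Icc x y, |z - t| < δ) →
        |E y - E x| ≤ ε * |X y - X x| := by
      intro x y hxy hz
      have hω : ∀ v ∈ Icc x y, ∀ w ∈ Icc x y, ‖u v - u w‖ ≤ 2 * η := by
        intro v hv w hw
        have e : u v - u w = (u v - u t) - (u w - u t) := by abel
        rw [e]
        refine (norm_sub_le _ _).trans ?_
        have := (hball v (hz v hv)).1
        have := (hball w (hz w hw)).1
        linarith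
      have g1 := h.key x y hxy _ hω
      have g2 : |SA a y - SA a x| ≤ η * (SA a3 y - SA a3 x) := by
        have m := SA_mono sa a0 hxy
        rw [abs_of_nonneg (sub_nonneg.mpr m), SA_sub sa hxy, SA_sub sa3 hxy]
        refine tsum_small sa sa3 fun τ hτ => ?_
        exact le_of_rpow (a0 τ) (hball τ (hz τ (Ioc_subset_Icc_self hτ))).2.1 hη0.le
      have g3 : |SB b y - SB b x| ≤ η * (SB b3 y - SB b3 x) := by
        have m := SB_mono sb b0 hxy
        rw [abs_of_nonneg (sub_nonneg.mpr m), SB_sub sb hxy, SB_sub sb3 hxy]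
        refine tsum_small sb sb3 fun τ hτ => ?_
        exact le_of_rpow (b0 τ) (hball τ (hz τ (Ico_subset_Icc_self hτ))).2.2 hη0.le
      have g4 : E y - E x = (D y - D x) - (SA a y - SA a x) + (SB b y - SB b x) := by
        simp only [hE]; ring
      have m1 : 0 ≤ L y - L x := sub_nonneg.mpr (h.mono hxy)
      have m2 : 0 ≤ SA a3 y - SA a3 x := sub_nonneg.mpr (SA_mono sa3 a30 hxy)
      have m3 : 0 ≤ SB b3 y - SB b3 x := sub_nonneg.mpr (SB_mono sb3 b30 hxy)
      have g5 : |X y - X x| = (y - x) + (L y - L x) + (SA a3 y - SA a3 x)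
          + (SB b3 y - SB b3 x) := by
        rw [abs_of_nonneg]
        · simp only [hX]; ring
        · simp only [hX]; linarith
      rw [g4, g5]
      calc |(D y - D x) - (SA a y - SA a x) + (SB b y - SB b x)|
          ≤ |(D y - D x) - (SA a y - SA a x)| + |SB b y - SB b x| := abs_add_le _ _
        _ ≤ |D y - D x| + |SA a y - SA a x| + |SB b y - SB b x| := by
            gcongr; exact abs_sub _ _
        _ ≤ ε / 3 * (L y - L x) + ε / 3 * (SA a3 y - SA a3 x) + ε / 3 * (SB b3 y - SB b3 x) := by
            have k1 := mul_le_mul_of_nonneg_right hη2 m1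
            have k2 := mul_le_mul_of_nonneg_right hη1 m2
            have k3 := mul_le_mul_of_nonneg_right hη1 m3
            linarith
        _ ≤ _ := by
            have q1 : 0 ≤ ε * (y - x) := mul_nonneg hε.le (sub_nonneg.mpr hxy)
            have q2 : 0 ≤ ε * (L y - L x) := mul_nonneg hε.le m1
            have q3 : 0 ≤ ε * (SA a3 y - SA a3 x) := mul_nonneg hε.le m2
            have q4 : 0 ≤ ε * (SB b3 y - SB b3 x) := mul_nonneg hε.le m3
            nlinarith
    filter_upwards [Metric.ball_mem_nhds t hδ] with s hs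
    rw [Metric.mem_ball, Real.dist_eq] at hs
    rcases le_total s t with hst | hst
    · rw [abs_sub_comm (E s), abs_sub_comm (X s)]
      refine key s t hst fun z hz => ?_
      rw [abs_lt] at hs ⊢
      constructor <;> linarith [hz.1, hz.2]
    · refine key t s hst fun z hz => ?_
      rw [abs_lt] at hs ⊢
      constructor <;> linarith [hz.1, hz.2]
  -- the image of `R`
  have hnull : volume (E '' R) = 0 := by
    set f : ℝ → ℝ := fun x => E (invFun X x) with hf
    have hinv : ∀ t, invFun X (X t) = t := leftInverse_invFun hXs.injective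
    have h1 : volume (f '' (X '' R)) = 0 := by
      refine addHaar_image_eq_zero_of_det_fderivWithin_eq_zero volume (f' := fun _ => 0) ?_ ?_
      · rintro _ ⟨t, ht, rfl⟩
        rw [hasFDerivWithinAt_iff_isLittleO, Asymptotics.isLittleO_iff]
        intro ε hε
        have h2 := hloc t ht ε hε
        obtain ⟨δ, hδ, hδ'⟩ := Metric.eventually_nhds_iff_ball.mp h2
        have h3 : Metric.ball (X t) δ ∈ 𝓝[X '' R] (X t) :=
          nhdsWithin_le_nhds (Metric.ball_mem_nhds _ hδ)
        filter_upwards [h3, self_mem_nhdsWithin] with x hx hxR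
        obtain ⟨s, hs, rfl⟩ := hxR
        rw [Metric.mem_ball, Real.dist_eq] at hx
        have h4 := hδ' s (by
          rw [Metric.mem_ball, Real.dist_eq]
          exact (hXd t s).trans_lt hx)
        simp only [hf, hinv]
        simpa using h4
      · intro x _
        simp [ContinuousLinearMap.det]
    have h2 : f '' (X '' R) = E '' R := by
      rw [image_image]
      refine image_congr fun t _ => ?_
      simp only [hf, hinv]
    rwa [h2] at h1
  have hrange : volume (range E) = 0 := by
    have h1 : range E ⊆ E '' R ∪ E '' Rᶜ := by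
      rw [← image_union, union_compl_self, image_univ]
    refine measure_mono_null h1 (measure_union_null hnull ?_)
    exact (hRc.image E).measure_zero _
  have hconst : ∀ s t, E s = E t := by
    intro s t
    by_contra hne
    have h1 : uIcc (E s) (E t) ⊆ range E := by
      rw [← image_univ]
      exact (isPreconnected_univ.image E hEc.continuousOn).ordConnected.uIcc_subset
        ⟨s, mem_univ _, rfl⟩ ⟨t, mem_univ _, rfl⟩
    have h2 := measure_mono_null h1 hrange
    rw [Real.volume_interval, ENNReal.ofReal_eq_zero] at h2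
    have h3 : |E t - E s| = 0 := le_antisymm h2 (abs_nonneg _)
    exact hne (sub_eq_zero.mp (abs_eq_zero.mp h3)).symm
  intro s t
  have := hconst s t
  simp only [hE] at this
  linarith

end Hyp

end Pool.Agent.Helper30.EJ
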