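import Mathlib
import Pool.Graph.R_seed8.H772R2.NS.Build
import Pool.Graph.R_seed8.TH301.EQ.Inc
import Pool.Agent.Helper30.EJ.Key2
import Pool.Agent.Helper30.EJ.Sum

/-!
The energy defect of a weak solution of the Navier-Stokes equations in terms of the oscillation and
of the tails of the enstrophy.
-/

set_option linter.unusedSectionVars false
set_option autoImplicit false

open MeasureTheory Set Filter Topology
open scoped InnerProductSpace ENNReal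

namespace Pool.Agent.Helper30.EJ

open H772R2.NS Pool.Agent.TH301.EQ

variable {Ω : Set E3}

/-- the constant -/
noncomputable def c1 : ℝ := c0 * Real.sqrt 2

theorem c1_nonneg : 0 ≤ c1 := mul_nonneg c0_nonneg (Real.sqrt_nonneg _)

theorem tri_bound (hΩ : IsOpen Ω) {p q : L2V Ω × L2M Ω} (hp : p ∈ graphW Ω) (hq : q ∈ graphW Ω)
    {h ω : ℝ} (hh : 0 ≤ h) (h1 : h ≤ ‖p.2‖) (h2 : ‖q.2‖ ≤ h) (hω : ‖p.1 - q.1‖ ≤ ω) :
    |⟪tensL p.1, q.2⟫_ℝ| ≤ c1 * Real.sqrt ω * (Real.sqrt h * ‖p.2‖ ^ 2) := by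
  have k := tri_inc hΩ.measurableSet hp hq
  have hc := c0_nonneg
  have hp0 := norm_nonneg p.2
  have e1 : Real.sqrt (‖p.2‖ + ‖q.2‖) ≤ Real.sqrt 2 * Real.sqrt ‖p.2‖ := by
    rw [← Real.sqrt_mul (by norm_num)]
    exact Real.sqrt_le_sqrt (by linarith)
  have e2 : Real.sqrt ‖p.1 - q.1‖ ≤ Real.sqrt ω := Real.sqrt_le_sqrt hω
  have e3 : ‖q.2‖ ≤ Real.sqrt h * Real.sqrt ‖p.2‖ := by
    calc ‖q.2‖ ≤ h := h2
      _ = Real.sqrt h * Real.sqrt h := (Real.mul_self_sqrt hh).symm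
      _ ≤ Real.sqrt h * Real.sqrt ‖p.2‖ := by
        gcongr
  refine k.trans ?_
  calc c0 * (‖p.2‖ * ‖q.2‖ * Real.sqrt (‖p.2‖ + ‖q.2‖) * Real.sqrt ‖p.1 - q.1‖)
      ≤ c0 * (‖p.2‖ * (Real.sqrt h * Real.sqrt ‖p.2‖) * (Real.sqrt 2 * Real.sqrt ‖p.2‖)
          * Real.sqrt ω) := by gcongr
    _ = c0 * Real.sqrt 2 * Real.sqrt ω * (Real.sqrt h * (‖p.2‖ * (Real.sqrt ‖p.2‖
          * Real.sqrt ‖p.2‖))) := by ring
    _ = _ := by rw [Real.mul_self_sqrt hp0, c1]; ring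

variable {ν T : ℝ} {u : ℝ → L2V Ω} {G : ℝ → L2M Ω} {f : ℝ → L2V Ω}

/-- the tail function -/
noncomputable def tl (G : ℝ → L2M Ω) (r x : ℝ) : ℝ :=
  Real.sqrt r * ∫ τ in (0 : ℝ)..x, {τ | r < ‖G τ‖}.indicator (fun τ => ‖G τ‖ ^ 2) τ

theorem tl_int (hT : 0 < T) (h : IsWeakSolution Ω ν T u G f) (r : ℝ) {x y : ℝ} (hx : 0 ≤ x)
    (hy : 0 ≤ y) (hxT : x ≤ T) (hyT : y ≤ T) :
    IntervalIntegrable ({τ | r < ‖G τ‖}.indicator (fun τ => ‖G τ‖ ^ 2)) volume x y := by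
  have hG2 : Integrable (fun t => ‖G t‖ ^ 2) (volume.restrict (Ioo 0 T)) :=
    (memLp_two_iff_integrable_sq_norm h.gradL2.aestronglyMeasurable).mp h.gradL2
  have hGm : AEStronglyMeasurable (fun τ => ‖G τ‖) (volume.restrict (Ioo 0 T)) :=
    h.gradL2.aestronglyMeasurable.norm
  have hset : NullMeasurableSet {τ | r < ‖G τ‖} (volume.restrict (Ioo 0 T)) :=
    nullMeasurableSet_lt aemeasurable_const hGm.aemeasurable
  have h1 := hG2.indicator₀ hset
  rw [← restrict_Ioc_eq] at h1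
  have h2 : IntervalIntegrable ({τ | r < ‖G τ‖}.indicator (fun τ => ‖G τ‖ ^ 2)) volume 0 T := by
    rw [intervalIntegrable_iff_integrableOn_Ioc_of_le hT.le]
    exact h1
  refine h2.mono_set ?_
  rw [uIcc_of_le hT.le]
  exact (uIcc_subset_Icc ⟨hx, hxT⟩ ⟨hy, hyT⟩)

theorem tl_sub (hT : 0 < T) (h : IsWeakSolution Ω ν T u G f) (r : ℝ) {s t : ℝ} (hs : 0 ≤ s)
    (hst : s ≤ t) (ht : t ≤ T) :
    tl G r t - tl G r s
      = Real.sqrt r * ∫ τ in Ioc s t, {τ | r < ‖G τ‖}.indicator (fun τ => ‖G τ‖ ^ 2) τ := by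
  unfold tl
  rw [← mul_sub, intervalIntegral.integral_interval_sub_left
    (tl_int hT h r le_rfl (hs.trans hst) hT.le ht)
    (tl_int hT h r le_rfl hs hT.le (hst.trans ht)), intervalIntegral.integral_of_le hst]

theorem tl_mono (hT : 0 < T) (h : IsWeakSolution Ω ν T u G f) (r : ℝ) {s t : ℝ} (hs : 0 ≤ s)
    (hst : s ≤ t) (ht : t ≤ T) : tl G r s ≤ tl G r t := by
  have h1 := tl_sub hT h r hs hst ht
  have h2 : 0 ≤ Real.sqrt r * ∫ τ in Ioc s t, {τ | r < ‖G τ‖}.indicator (fun τ => ‖G τ‖ ^ 2) τ :=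
    mul_nonneg (Real.sqrt_nonneg _) (integral_nonneg fun τ =>
      indicator_nonneg (fun _ _ => sq_nonneg _) τ)
  linarith

theorem tl_zero (r : ℝ) : tl G r 0 = 0 := by simp [tl]

/-- the tail function and the extended nonnegative reals -/
theorem ofReal_tl (hT : 0 < T) (h : IsWeakSolution Ω ν T u G f) (r : ℝ) :
    ENNReal.ofReal (tl G r T)
      = ENNReal.ofReal (Real.sqrt r) * ∫⁻ τ in Ioo 0 T ∩ {τ | r < ‖G τ‖}, ‖G τ‖ₑ ^ 2 := by
  have hGm : AEStronglyMeasurable (fun τ => ‖G τ‖) (volume.restrict (Ioo 0 T)) :=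
    h.gradL2.aestronglyMeasurable.norm
  have hset : NullMeasurableSet {τ | r < ‖G τ‖} (volume.restrict (Ioo 0 T)) :=
    nullMeasurableSet_lt aemeasurable_const hGm.aemeasurable
  have hi := tl_int hT h r le_rfl hT.le hT.le le_rfl
  unfold tl
  rw [ENNReal.ofReal_mul (Real.sqrt_nonneg _)]
  congr 1
  rw [intervalIntegral.integral_of_le hT.le]
  rw [intervalIntegrable_iff_integrableOn_Ioc_of_le hT.le] at hi
  rw [ofReal_integral_eq_lintegral_ofReal hi (Eventually.of_forall fun τ =>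
    indicator_nonneg (fun _ _ => sq_nonneg _) τ)]
  have e1 : (volume.restrict (Ioc 0 T) : Measure ℝ) = volume.restrict (Ioo 0 T) :=
    restrict_Ioc_eq T
  rw [e1]
  have e2 : ∀ τ, ENNReal.ofReal ({τ | r < ‖G τ‖}.indicator (fun τ => ‖G τ‖ ^ 2) τ)
      = {τ | r < ‖G τ‖}.indicator (fun τ => ‖G τ‖ₑ ^ 2) τ := by
    intro τ
    by_cases hτ : τ ∈ {τ | r < ‖G τ‖}
    · rw [indicator_of_mem hτ, indicator_of_mem hτ, ENNReal.ofReal_pow (norm_nonneg _),
        ofReal_norm]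
    · rw [indicator_of_notMem hτ, indicator_of_notMem hτ, ENNReal.ofReal_zero]
  simp_rw [e2]
  rw [lintegral_indicator₀ hset, Measure.restrict_restrict₀ hset, inter_comm]

/-- the local estimate of the increments of the energy defect -/
theorem loc_tail (hΩ : IsOpen Ω) (hν : 0 ≤ ν) (hT : 0 < T) (h : IsWeakSolution Ω ν T u G f)
    {s t : ℝ} (hs : 0 ≤ s) (hst : s ≤ t) (ht : t ≤ T) {ω : ℝ}
    (hω : ∀ x ∈ Icc s t, ∀ y ∈ Icc s t, ‖u x - u y‖ ≤ ω) (ε : ℝ) (hε : 0 < ε) :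
    ∃ h0 : ℝ, ∀ r ≥ h0, |defect ν u G f t - defect ν u G f s|
      ≤ c1 * Real.sqrt ω * (tl G r t - tl G r s) + ε := by
  obtain ⟨M, hM⟩ := h.bdd
  have S := h.toSol hΩ hν hT hM
  have hsub : Ioc s t ⊆ Ioc 0 T := Ioc_subset_Ioc hs ht
  have hG2 : IntegrableOn (fun t => ‖G t‖ ^ 2) (Ioc s t) volume :=
    IntegrableOn.mono_set S.G2 hsub
  have hc := c1_nonneg
  obtain ⟨h0, hh0⟩ := lam2 S hs hst ht
    (κ := fun r τ => c1 * Real.sqrt ω * (Real.sqrt r * ‖G τ‖ ^ 2))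
    (fun r => (hG2.const_mul (Real.sqrt r)).const_mul (c1 * Real.sqrt ω))
    (fun r τ => by positivity)
    (fun r hr => by
      have hmem : ∀ᵐ τ ∂(volume.restrict (Ioc s t)), (u τ, G τ) ∈ graphW Ω :=
        ae_mono (Measure.restrict_mono hsub le_rfl) S.memW
      filter_upwards [hmem, ae_restrict_mem measurableSet_Ioc] with τ k1 k2 k3 a ha z hz hzW
      exact tri_bound hΩ (p := (u τ, G τ)) (q := (u a, z)) k1 hzW hr k3.le hz
        (hω τ (Ioc_subset_Icc_self k2) a ha)) ε hε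
  refine ⟨h0, fun r hr => (hh0 r hr).trans (le_of_eq ?_)⟩
  congr 1
  rw [tl_sub hT h r hs hst ht]
  have hGm : AEStronglyMeasurable (fun τ => ‖G τ‖) (volume.restrict (Ioc s t)) :=
    (S.Gmeas.mono_measure (Measure.restrict_mono hsub le_rfl)).norm
  have hset : NullMeasurableSet {τ | r < ‖G τ‖} (volume.restrict (Ioc s t)) :=
    nullMeasurableSet_lt aemeasurable_const hGm.aemeasurable
  rw [integral_indicator₀ hset, Measure.restrict_restrict₀ hset, inter_comm, integral_const_mul,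
    integral_const_mul]

/-- the asymptotics of the increments near a time -/
theorem asym (hΩ : IsOpen Ω) (hν : 0 ≤ ν) (hT : 0 < T) (h : IsWeakSolution Ω ν T u G f)
    {t : ℝ} (ht : t ∈ Icc 0 T) :
    Tendsto (fun s => ‖u s - u t‖ ^ 2 - 2 * (defect ν u G f t - defect ν u G f s))
      (𝓝[Icc 0 T] t) (𝓝 0) := by
  obtain ⟨M, hM⟩ := h.bdd
  have S := h.toSol hΩ hν hT hM
  have hpi : IntervalIntegrable (pow ν u G f) volume 0 T := by
    rw [intervalIntegrable_iff_integrableOn_Ioc_of_le hT.le]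
    exact S.pow_int
  have hc : ContinuousOn (fun x => ∫ r in (0 : ℝ)..x, pow ν u G f r) (Icc 0 T) := by
    have := intervalIntegral.continuousOn_primitive_interval' hpi left_mem_uIcc
    rwa [uIcc_of_le hT.le] at this
  have h1 := (hc t ht).tendsto
  have h2 := (h.wcont (u t) t ht).tendsto
  have h3 := ((tendsto_const_nhds (x := ‖u t‖ ^ 2) (f := 𝓝[Icc 0 T] t)).sub h2).const_mul 2
  have h4 := ((tendsto_const_nhds (x := ∫ r in (0 : ℝ)..t, pow ν u G f r)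
    (f := 𝓝[Icc 0 T] t)).sub h1).const_mul 2
  have h5 := h3.sub h4
  rw [real_inner_self_eq_norm_sq, sub_self, mul_zero, sub_self, mul_zero, sub_zero] at h5
  refine h5.congr fun s => ?_
  unfold defect
  rw [norm_sub_sq_real]
  ring

/-- **The limit of the tail functions.** -/
theorem exists_limit (hΩ : IsOpen Ω) (hν : 0 ≤ ν) (hT : 0 < T) (h : IsWeakSolution Ω ν T u G f)
    (hK : liminf (fun r : ℝ => ENNReal.ofReal (Real.sqrt r)
        * ∫⁻ τ in Ioo 0 T ∩ {τ | r < ‖G τ‖}, ‖G τ‖ₑ ^ 2) atTop ≠ ⊤) :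
    ∃ L : ℝ → ℝ, MonotoneOn L (Icc 0 T) ∧ (∀ t ∈ Icc 0 T, 0 ≤ L t) ∧
      L T ≤ (liminf (fun r : ℝ => ENNReal.ofReal (Real.sqrt r)
        * ∫⁻ τ in Ioo 0 T ∩ {τ | r < ‖G τ‖}, ‖G τ‖ₑ ^ 2) atTop).toReal ∧
      ∀ s t, 0 ≤ s → s ≤ t → t ≤ T → ∀ ω, (∀ x ∈ Icc s t, ∀ y ∈ Icc s t, ‖u x - u y‖ ≤ ω) →
        |defect ν u G f t - defect ν u G f s| ≤ c1 * Real.sqrt ω * (L t - L s) := by
  set K := liminf (fun r : ℝ => ENNReal.ofReal (Real.sqrt r)
        * ∫⁻ τ in Ioo 0 T ∩ {τ | r < ‖G τ‖}, ‖G τ‖ₑ ^ 2) atTop with hKdef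
  have hex : ∀ n : ℕ, ∃ r : ℝ, (n : ℝ) ≤ r ∧ tl G r T ≤ K.toReal + 1 / ((n : ℝ) + 1) := by
    intro n
    have hn : (0 : ℝ) < 1 / ((n : ℝ) + 1) := by positivity
    have h1 : K < K + ENNReal.ofReal (1 / ((n : ℝ) + 1)) :=
      ENNReal.lt_add_right hK (by simpa using hn)
    have h2 := frequently_lt_of_liminf_lt (by isBoundedDefault) (hKdef ▸ h1)
    obtain ⟨r, hr, hr2⟩ := (h2.and_eventually (eventually_ge_atTop (n : ℝ))).exists
    refine ⟨r, hr2, ?_⟩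
    rw [← ofReal_tl hT h r] at hr
    have h3 := ENNReal.toReal_mono (ENNReal.add_ne_top.mpr ⟨hK, ENNReal.ofReal_ne_top⟩) hr.le
    have h0 : 0 ≤ tl G r T := by
      have := tl_mono hT h r le_rfl hT.le le_rfl
      rwa [tl_zero] at this
    rwa [ENNReal.toReal_ofReal h0, ENNReal.toReal_add hK ENNReal.ofReal_ne_top,
      ENNReal.toReal_ofReal hn.le] at h3
  choose r hr1 hr2 using hex
  have hnn : ∀ n : ℕ, ∀ x ∈ Icc 0 T, 0 ≤ tl G (r n) x := by
    intro n x hx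
    have := tl_mono hT h (r n) le_rfl hx.1 hx.2
    rwa [tl_zero] at this
  have hle : ∀ n : ℕ, ∀ x ∈ Icc 0 T, tl G (r n) x ≤ K.toReal + 1 := by
    intro n x hx
    have h1 := tl_mono hT h (r n) hx.1 hx.2 le_rfl
    have h2 := hr2 n
    have h3 : 1 / ((n : ℝ) + 1) ≤ 1 := by
      rw [div_le_one (by positivity)]
      have : (0 : ℝ) ≤ n := Nat.cast_nonneg n
      linarith
    linarith
  let F : Ultrafilter ℕ := hyperfilter ℕ
  have hF : (F : Filter ℕ) ≤ atTop := by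
    rw [← Nat.cofinite_eq_atTop]
    exact hyperfilter_le_cofinite
  have hlim : ∀ x ∈ Icc 0 T, ∃ l, Tendsto (fun n => tl G (r n) x) F (𝓝 l) := by
    intro x hx
    obtain ⟨l, _, hl⟩ := (isCompact_Icc (a := (0 : ℝ)) (b := K.toReal + 1)).ultrafilter_le_nhds
      (F.map fun n => tl G (r n) x) (by
        rw [le_principal_iff]
        show (fun n => tl G (r n) x) ⁻¹' Icc 0 (K.toReal + 1) ∈ (F : Filter ℕ)
        have : (fun n => tl G (r n) x) ⁻¹' Icc 0 (K.toReal + 1) = univ :=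
          eq_univ_of_forall fun n => ⟨hnn n x hx, hle n x hx⟩
        rw [this]
        exact univ_mem)
    exact ⟨l, hl⟩
  choose! L hL using hlim
  refine ⟨L, ?_, ?_, ?_, ?_⟩
  · intro x hx y hy hxy
    exact le_of_tendsto_of_tendsto' (hL x hx) (hL y hy) fun n =>
      tl_mono hT h (r n) hx.1 hxy hy.2
  · intro x hx
    exact ge_of_tendsto' (hL x hx) fun n => hnn n x hx
  · have h1 : Tendsto (fun n : ℕ => K.toReal + 1 / ((n : ℝ) + 1)) F (𝓝 (K.toReal + 0)) :=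
      (tendsto_one_div_add_atTop_nhds_zero_nat.mono_left hF).const_add _
    rw [add_zero] at h1
    exact le_of_tendsto_of_tendsto' (hL T ⟨hT.le, le_rfl⟩) h1 hr2
  · intro s t hs hst ht ω hω
    refine le_of_forall_pos_le_add fun ε hε => ?_
    obtain ⟨h0, hh0⟩ := loc_tail hΩ hν hT h hs hst ht hω ε hε
    have h1 : Tendsto (fun n => c1 * Real.sqrt ω * (tl G (r n) t - tl G (r n) s) + ε) F
        (𝓝 (c1 * Real.sqrt ω * (L t - L s) + ε)) :=
      (((hL t ⟨hs.trans hst, ht⟩).sub (hL s ⟨hs, hst.trans ht⟩)).const_mul _).add_const _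
    refine ge_of_tendsto h1 ?_
    obtain ⟨N, hN⟩ := exists_nat_ge h0
    filter_upwards [hF (eventually_ge_atTop N)] with n hn
    refine hh0 (r n) ?_
    have : (N : ℝ) ≤ n := by exact_mod_cast hn
    exact hN.trans (this.trans (hr1 n))

/-- the projection onto `[0,T]` -/
noncomputable def cl (T x : ℝ) : ℝ := max 0 (min x T)

theorem cl_mem (hT : 0 ≤ T) (x : ℝ) : cl T x ∈ Icc 0 T :=
  ⟨le_max_left _ _, max_le hT (min_le_right _ _)⟩

theorem cl_of_mem {x : ℝ} (hx : x ∈ Icc 0 T) : cl T x = x := by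
  unfold cl
  rw [min_eq_left hx.2, max_eq_right hx.1]

theorem cl_mono (T : ℝ) : Monotone (cl T) := fun x y h =>
  max_le_max le_rfl (min_le_min h le_rfl)

theorem cl_cont (T : ℝ) : Continuous (cl T) := by unfold cl; fun_prop

theorem cl_neg (hT : 0 ≤ T) {x : ℝ} (hx : x ≤ 0) : cl T x = 0 := by
  unfold cl
  rw [min_eq_left (hx.trans hT), max_eq_left hx]

theorem cl_big (hT : 0 ≤ T) {x : ℝ} (hx : T ≤ x) : cl T x = T := by
  unfold cl
  rw [min_eq_right hx, max_eq_right hT]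

/-- the hypotheses of the real analysis part -/
theorem hyp_of (hΩ : IsOpen Ω) (hν : 0 ≤ ν) (hT : 0 < T) (h : IsWeakSolution Ω ν T u G f)
    {M : ℝ} (hM : ∀ t ∈ Icc 0 T, ‖u t‖ ≤ M) {L : ℝ → ℝ} (h1 : MonotoneOn L (Icc 0 T))
    (h2 : ∀ s t, 0 ≤ s → s ≤ t → t ≤ T → ∀ ω, (∀ x ∈ Icc s t, ∀ y ∈ Icc s t, ‖u x - u y‖ ≤ ω) →
        |defect ν u G f t - defect ν u G f s| ≤ c1 * Real.sqrt ω * (L t - L s)) :
    Hyp c1 (2 * M) (fun x => L (cl T x)) (fun x => defect ν u G f (cl T x))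
      (fun x => u (cl T x)) where
  c0 := c1_nonneg
  mono := fun x y hxy => h1 (cl_mem hT.le x) (cl_mem hT.le y) (cl_mono T hxy)
  bdd := fun x y => by
    refine (norm_sub_le _ _).trans ?_
    have := hM _ (cl_mem hT.le x)
    have := hM _ (cl_mem hT.le y)
    linarith
  key := fun s t hst ω hω => by
    refine h2 _ _ (cl_mem hT.le s).1 (cl_mono T hst) (cl_mem hT.le t).2 ω ?_
    have h3 := intermediate_value_Icc hst (cl_cont T).continuousOn
    intro x hx y hy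
    obtain ⟨x', hx', rfl⟩ := h3 hx
    obtain ⟨y', hy', rfl⟩ := h3 hy
    exact hω x' hx' y' hy'
  lsc := fun t => by
    have h3 := asym hΩ hν hT h (cl_mem hT.le t)
    have h4 : Tendsto (cl T) (𝓝 t) (𝓝[Icc 0 T] (cl T t)) :=
      tendsto_nhdsWithin_iff.mpr ⟨(cl_cont T).tendsto t,
        Eventually.of_forall fun x => cl_mem hT.le x⟩
    exact h3.comp h4

end Pool.Agent.Helper30.EJ
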