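import Mathlib
import Pool.Agent.Helper30.EJ.NS

/-!
The energy defect of a weak solution in the critical class is a sum of jumps.
-/

set_option linter.unusedSectionVars false
set_option autoImplicit false

open MeasureTheory Set Filter Topology
open scoped InnerProductSpace ENNReal

namespace Pool.Agent.Helper30.EJ

open H772R2.NS Pool.Agent.TH301.EQ

variable {Ω : Set E3} {ν T : ℝ} {u : ℝ → L2V Ω} {G : ℝ → L2M Ω} {f : ℝ → L2V Ω}

/-- the constant of the theorem -/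
noncomputable def cj : ℝ := c1 * (2 : ℝ) ^ (3 / 4 : ℝ)

theorem cj_nonneg : 0 ≤ cj := mul_nonneg c1_nonneg (by positivity)

theorem ja_zero_of_const {D : ℝ → ℝ} {t : ℝ} (h : ∀ᶠ x in 𝓝[<] t, D x = D t) : ja D t = 0 := by
  unfold ja
  rw [leftLim_eq_of_tendsto (f := D) (a := t) (y := D t)
    ((tendsto_congr' h).mpr tendsto_const_nhds), sub_self]

theorem jb_zero_of_const {D : ℝ → ℝ} {t : ℝ} (h : ∀ᶠ x in 𝓝[>] t, D x = D t) : jb D t = 0 := by
  unfold jb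
  rw [rightLim_eq_of_tendsto (f := D) (a := t) (y := D t)
    ((tendsto_congr' h).mpr tendsto_const_nhds), sub_self]

theorem kin_of_sq {H : Type*} [NormedAddCommGroup H] [InnerProductSpace ℝ H] {v : ℝ → H} {w : H}
    {F : Filter ℝ} {a : ℝ} (h1 : Tendsto (fun s => ‖v s - w‖ ^ 2) F (𝓝 (2 * a)))
    (h2 : Tendsto (fun s => ⟪v s, w⟫_ℝ) F (𝓝 ⟪w, w⟫_ℝ)) :
    Tendsto (fun s => ‖v s‖ ^ 2 / 2) F (𝓝 (‖w‖ ^ 2 / 2 + a)) := by
  have h3 := ((h1.add (h2.const_mul 2)).sub (tendsto_const_nhds (x := ‖w‖ ^ 2))).div_const 2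
  rw [real_inner_self_eq_norm_sq] at h3
  have e : (2 * a + 2 * ‖w‖ ^ 2 - ‖w‖ ^ 2) / 2 = ‖w‖ ^ 2 / 2 + a := by ring
  rw [e] at h3
  refine h3.congr fun s => ?_
  rw [norm_sub_sq_real]
  ring

/-- **The energy defect in the critical class is a sum of jumps.** -/
theorem jumps (hΩ : IsOpen Ω) (hν : 0 ≤ ν) (hT : 0 < T) (h : IsWeakSolution Ω ν T u G f)
    (hK : liminf (fun r : ℝ => ENNReal.ofReal (Real.sqrt r)
        * ∫⁻ τ in Ioo 0 T ∩ {τ | r < ‖G τ‖}, ‖G τ‖ₑ ^ 2) atTop ≠ ⊤) :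
    ∃ a b : ℝ → ℝ, (∀ τ, 0 ≤ a τ ∧ 0 ≤ b τ) ∧ Summable a ∧ Summable b ∧
      (∀ t ∈ Icc 0 T, energyDefect ν u G f t
        = ∑' τ, (Ioc 0 t).indicator a τ - ∑' τ, (Ico 0 t).indicator b τ) ∧
      ∑' τ, ENNReal.ofReal (a τ ^ (3 / 4 : ℝ) + b τ ^ (3 / 4 : ℝ))
        ≤ ENNReal.ofReal cj * liminf (fun r : ℝ => ENNReal.ofReal (Real.sqrt r)
          * ∫⁻ τ in Ioo 0 T ∩ {τ | r < ‖G τ‖}, ‖G τ‖ₑ ^ 2) atTop ∧
      (∀ τ ∈ Ioc 0 T, Tendsto (fun s => ‖u s‖ ^ 2 / 2) (𝓝[<] τ) (𝓝 (‖u τ‖ ^ 2 / 2 + a τ))) ∧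
      (∀ τ ∈ Ico 0 T, Tendsto (fun s => ‖u s‖ ^ 2 / 2) (𝓝[>] τ) (𝓝 (‖u τ‖ ^ 2 / 2 + b τ))) := by
  obtain ⟨M, hM⟩ := h.bdd
  obtain ⟨L, hL1, hL2, hL3, hL4⟩ := exists_limit hΩ hν hT h hK
  have H := hyp_of hΩ hν hT h hM hL1 hL4
  have hp : ∀ x, 0 ≤ L (cl T x) := fun x => hL2 _ (cl_mem hT.le x)
  have hq : ∀ x, L (cl T x) ≤ (liminf (fun r : ℝ => ENNReal.ofReal (Real.sqrt r)
        * ∫⁻ τ in Ioo 0 T ∩ {τ | r < ‖G τ‖}, ‖G τ‖ₑ ^ 2) atTop).toReal := fun x =>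
    (hL1 (cl_mem hT.le x) ⟨hT.le, le_rfl⟩ (cl_mem hT.le x).2).trans hL3
  set D : ℝ → ℝ := fun x => defect ν u G f (cl T x) with hD
  obtain ⟨hsa, hsb, hrep⟩ := H.representation hp hq
  have hD0 : ∀ x ≤ 0, D x = 0 := by
    intro x hx
    show defect ν u G f (cl T x) = 0
    rw [cl_neg hT.le hx]
    simp [defect]
  have ha0 : ∀ τ ≤ 0, ja D τ = 0 := by
    intro τ hτ
    refine ja_zero_of_const ?_
    filter_upwards [self_mem_nhdsWithin] with x hx
    have hx' : x < τ := hx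
    rw [hD0 x (hx'.le.trans hτ), hD0 τ hτ]
  have hb0 : ∀ τ < 0, jb D τ = 0 := by
    intro τ hτ
    refine jb_zero_of_const ?_
    filter_upwards [Ioo_mem_nhdsGT hτ] with x hx
    rw [hD0 x hx.2.le, hD0 τ hτ.le]
  refine ⟨ja D, jb D, fun τ => ⟨H.ja0 τ, H.jb0 τ⟩, hsa, hsb, ?_, ?_, ?_, ?_⟩
  · intro t ht
    have h1 := hrep (-1) t
    have hle : (-1 : ℝ) ≤ t := by linarith [ht.1]
    have h2 := SA_sub hsa hle
    have h3 := SB_sub hsb hle
    have e1 : (Ioc (-1) t).indicator (ja D) = (Ioc 0 t).indicator (ja D) := by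
      funext τ
      by_cases hτ : τ ∈ Ioc 0 t
      · rw [indicator_of_mem hτ, indicator_of_mem
          (show τ ∈ Ioc (-1) t from ⟨by linarith [hτ.1], hτ.2⟩)]
      · rw [indicator_of_notMem hτ]
        by_cases hτ' : τ ∈ Ioc (-1) t
        · rw [indicator_of_mem hτ']
          refine ha0 τ ?_
          by_contra hcon
          exact hτ ⟨not_le.mp hcon, hτ'.2⟩
        · rw [indicator_of_notMem hτ']
    have e2 : (Ico (-1) t).indicator (jb D) = (Ico 0 t).indicator (jb D) := by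
      funext τ
      by_cases hτ : τ ∈ Ico 0 t
      · rw [indicator_of_mem hτ, indicator_of_mem
          (show τ ∈ Ico (-1) t from ⟨by linarith [hτ.1], hτ.2⟩)]
      · rw [indicator_of_notMem hτ]
        by_cases hτ' : τ ∈ Ico (-1) t
        · rw [indicator_of_mem hτ']
          refine hb0 τ ?_
          by_contra hcon
          exact hτ ⟨not_lt.mp hcon, hτ'.2⟩
        · rw [indicator_of_notMem hτ']
    rw [e1] at h2
    rw [e2] at h3
    have h4 : D t = energyDefect ν u G f t := by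
      rw [energyDefect_eq hΩ hν hT h ht]
      show defect ν u G f (cl T t) = _
      rw [cl_of_mem ht]
    have h5 := hD0 (-1) (by norm_num)
    rw [h5, sub_zero, h4] at h1
    rw [h1, ← h2, ← h3]
    ring
  · refine (H.tsum_rpow hp hq).trans (le_of_eq ?_)
    rw [sub_zero]
    show ENNReal.ofReal (cj * _) = _
    rw [ENNReal.ofReal_mul cj_nonneg, ENNReal.ofReal_toReal hK]
  · intro τ hτ
    have h1 := H.nsq_left τ
    have hτ' : τ ∈ Icc 0 T := ⟨hτ.1.le, hτ.2⟩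
    refine kin_of_sq (w := u τ) (a := ja D τ) ?_ ?_
    · refine (tendsto_congr' ?_).mp h1
      filter_upwards [Ioo_mem_nhdsLT hτ.1] with s hs
      rw [cl_of_mem (T := T) ⟨hs.1.le, hs.2.le.trans hτ.2⟩, cl_of_mem hτ']
    · refine ((h.wcont (u τ) τ hτ').tendsto).mono_left ?_
      rw [← nhdsWithin_Ioo_eq_nhdsLT hτ.1]
      exact nhdsWithin_mono _ fun x hx => ⟨hx.1.le, hx.2.le.trans hτ.2⟩
  · intro τ hτ
    have h1 := H.nsq_right τ
    have hτ' : τ ∈ Icc 0 T := ⟨hτ.1, hτ.2.le⟩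
    refine kin_of_sq (w := u τ) (a := jb D τ) ?_ ?_
    · refine (tendsto_congr' ?_).mp h1
      filter_upwards [Ioo_mem_nhdsGT hτ.2] with s hs
      rw [cl_of_mem (T := T) ⟨hτ.1.trans hs.1.le, hs.2.le⟩, cl_of_mem hτ']
    · refine ((h.wcont (u τ) τ hτ').tendsto).mono_left ?_
      rw [← nhdsWithin_Ioo_eq_nhdsGT hτ.2]
      exact nhdsWithin_mono _ fun x hx => ⟨hτ.1.trans hx.1.le, hx.2.le⟩

/-- a strongly continuous solution of the critical class satisfies the energy equality -/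
theorem eq_of_cont (hΩ : IsOpen Ω) (hν : 0 ≤ ν) (hT : 0 < T) (h : IsWeakSolution Ω ν T u G f)
    (hK : liminf (fun r : ℝ => ENNReal.ofReal (Real.sqrt r)
        * ∫⁻ τ in Ioo 0 T ∩ {τ | r < ‖G τ‖}, ‖G τ‖ₑ ^ 2) atTop ≠ ⊤)
    (hu : ContinuousOn u (Icc 0 T)) :
    ∀ t ∈ Icc 0 T, energyDefect ν u G f t = 0 := by
  obtain ⟨a, b, h0, -, -, hrep, -, hl, hr⟩ := jumps hΩ hν hT h hK
  have hcn : ContinuousOn (fun s => ‖u s‖ ^ 2 / 2) (Icc 0 T) := (hu.norm.pow 2).div_const 2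
  have ha : ∀ τ ∈ Ioc 0 T, a τ = 0 := by
    intro τ hτ
    have h1 : Tendsto (fun s => ‖u s‖ ^ 2 / 2) (𝓝[<] τ) (𝓝 (‖u τ‖ ^ 2 / 2)) := by
      refine ((hcn τ ⟨hτ.1.le, hτ.2⟩).tendsto).mono_left ?_
      rw [← nhdsWithin_Ioo_eq_nhdsLT hτ.1]
      exact nhdsWithin_mono _ fun x hx => ⟨hx.1.le, hx.2.le.trans hτ.2⟩
    have h2 := tendsto_nhds_unique h1 (hl τ hτ)
    linarith
  have hb : ∀ τ ∈ Ico 0 T, b τ = 0 := by
    intro τ hτ
    have h1 : Tendsto (fun s => ‖u s‖ ^ 2 / 2) (𝓝[>] τ) (𝓝 (‖u τ‖ ^ 2 / 2)) := by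
      refine ((hcn τ ⟨hτ.1, hτ.2.le⟩).tendsto).mono_left ?_
      rw [← nhdsWithin_Ioo_eq_nhdsGT hτ.2]
      exact nhdsWithin_mono _ fun x hx => ⟨hτ.1.trans hx.1.le, hx.2.le⟩
    have h2 := tendsto_nhds_unique h1 (hr τ hτ)
    linarith
  intro t ht
  rw [hrep t ht]
  have e1 : ∀ τ, (Ioc 0 t).indicator a τ = 0 := by
    intro τ
    by_cases hτ : τ ∈ Ioc 0 t
    · rw [indicator_of_mem hτ]
      exact ha τ ⟨hτ.1, hτ.2.trans ht.2⟩
    · rw [indicator_of_notMem hτ]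
  have e2 : ∀ τ, (Ico 0 t).indicator b τ = 0 := by
    intro τ
    by_cases hτ : τ ∈ Ico 0 t
    · rw [indicator_of_mem hτ]
      exact hb τ ⟨hτ.1, hτ.2.trans_le ht.2⟩
    · rw [indicator_of_notMem hτ]
  simp only [e1, e2, tsum_zero, sub_zero]

/-- the critical weak Lebesgue class -/
theorem weak_class (h : IsWeakSolution Ω ν T u G f) {C : ℝ}
    (hC : ∀ l : ℝ, 0 < l → volume {τ ∈ Ioo 0 T | l < ‖G τ‖} ≤ ENNReal.ofReal (C / l ^ (5 / 2 : ℝ))) :
    liminf (fun r : ℝ => ENNReal.ofReal (Real.sqrt r)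
        * ∫⁻ τ in Ioo 0 T ∩ {τ | r < ‖G τ‖}, ‖G τ‖ₑ ^ 2) atTop ≠ ⊤ := by
  set C' := max C 0 with hC'
  have hC0 : 0 ≤ C' := le_max_right _ _
  set ρ : ℝ := (2 : ℝ) ^ (-(1 / 2) : ℝ) with hρ
  have hρ0 : 0 < ρ := by positivity
  have hρ1 : ρ < 1 := Real.rpow_lt_one_of_one_lt_of_neg (by norm_num) (by norm_num)
  have hρs : Summable fun k : ℕ => ρ ^ k := summable_geometric_of_lt_one hρ0.le hρ1
  set μ : Measure ℝ := volume.restrict (Ioo 0 T) with hμ
  have hGm : AEMeasurable (fun τ => ‖G τ‖) μ := h.gradL2.aestronglyMeasurable.norm.aemeasurable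
  have key : ∀ r : ℝ, 1 ≤ r → ENNReal.ofReal (Real.sqrt r)
      * ∫⁻ τ in Ioo 0 T ∩ {τ | r < ‖G τ‖}, ‖G τ‖ₑ ^ 2
      ≤ ENNReal.ofReal (4 * C' * ∑' k : ℕ, ρ ^ k) := by
    intro r hr
    have hr0 : 0 < r := by linarith
    have hsr : 0 < Real.sqrt r := Real.sqrt_pos.mpr hr0
    let S : ℕ → Set ℝ := fun k => {τ | 2 ^ k * r < ‖G τ‖ ∧ ‖G τ‖ ≤ 2 ^ (k + 1) * r}
    have hSm : ∀ k, NullMeasurableSet (S k) μ := fun k =>
      (nullMeasurableSet_lt aemeasurable_const hGm).inter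
        (nullMeasurableSet_le hGm aemeasurable_const)
    have hset : NullMeasurableSet {τ | r < ‖G τ‖} μ := nullMeasurableSet_lt aemeasurable_const hGm
    have hcov : {τ | r < ‖G τ‖} ⊆ ⋃ k : ℕ, S k := by
      intro τ h2
      have h2' : r < ‖G τ‖ := h2
      have hex : ∃ k : ℕ, ‖G τ‖ ≤ 2 ^ k * r := by
        obtain ⟨k, hk⟩ := pow_unbounded_of_one_lt (‖G τ‖) (by norm_num : (1 : ℝ) < 2)
        refine ⟨k, hk.le.trans ?_⟩
        have : (0 : ℝ) < 2 ^ k := by positivity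
        nlinarith
      classical
      have hk := Nat.find_spec hex
      have hk0 : Nat.find hex ≠ 0 := by
        intro h0
        rw [h0, pow_zero, one_mul] at hk
        exact absurd h2' (not_lt.mpr hk)
      obtain ⟨k, hkk⟩ := Nat.exists_eq_succ_of_ne_zero hk0
      rw [mem_iUnion]
      refine ⟨k, ?_, ?_⟩
      · have := Nat.find_min hex (m := k) (by omega)
        exact not_le.mp this
      · rw [hkk] at hk
        exact hk
    have hpiece : ∀ k : ℕ, ∫⁻ τ in S k, ‖G τ‖ₑ ^ 2 ∂μ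
          ≤ ENNReal.ofReal (4 * C' / Real.sqrt r * ρ ^ k) := by
      intro k
      have h2k : (0 : ℝ) < 2 ^ k := by positivity
      have hx : 0 < 2 ^ k * r := by positivity
      calc ∫⁻ τ in S k, ‖G τ‖ₑ ^ 2 ∂μ
          ≤ ∫⁻ τ in S k, ENNReal.ofReal ((2 ^ (k + 1) * r) ^ 2) ∂μ := by
            refine lintegral_mono_ae ?_
            refine (ae_restrict_iff'₀ (hSm k)).mpr ?_
            refine Eventually.of_forall fun τ hτ => ?_
            rw [ENNReal.ofReal_pow (by positivity), ← ofReal_norm]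
            gcongr
            exact hτ.2
        _ = ENNReal.ofReal ((2 ^ (k + 1) * r) ^ 2) * μ (S k) := by
            rw [lintegral_const, Measure.restrict_apply_univ]
        _ ≤ ENNReal.ofReal ((2 ^ (k + 1) * r) ^ 2)
              * ENNReal.ofReal (C' / (2 ^ k * r) ^ (5 / 2 : ℝ)) := by
            gcongr
            calc μ (S k) ≤ μ {τ | 2 ^ k * r < ‖G τ‖} := measure_mono fun τ hτ => hτ.1
              _ = volume {τ ∈ Ioo 0 T | 2 ^ k * r < ‖G τ‖} := by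
                  rw [hμ, Measure.restrict_apply' measurableSet_Ioo]
                  congr 1
                  ext τ
                  exact and_comm
              _ ≤ ENNReal.ofReal (C / (2 ^ k * r) ^ (5 / 2 : ℝ)) := hC _ hx
              _ ≤ _ := by
                  refine ENNReal.ofReal_le_ofReal ?_
                  gcongr
                  exact le_max_left _ _
        _ = ENNReal.ofReal (4 * C' / Real.sqrt r * ρ ^ k) := by
            rw [← ENNReal.ofReal_mul (by positivity)]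
            congr 1
            have e1 : (2 ^ k * r) ^ (5 / 2 : ℝ) = (2 ^ k * r) ^ 2 * Real.sqrt (2 ^ k * r) := by
              rw [Real.sqrt_eq_rpow, ← Real.rpow_natCast (2 ^ k * r) 2, ← Real.rpow_add hx]
              norm_num
            have e2 : Real.sqrt (2 ^ k * r) = (ρ ^ k)⁻¹ * Real.sqrt r := by
              rw [Real.sqrt_mul h2k.le]
              congr 1
              rw [hρ, Real.sqrt_eq_rpow, ← Real.rpow_natCast 2 k, ← Real.rpow_natCast _ k,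
                ← Real.rpow_mul (by norm_num), ← Real.rpow_mul (by norm_num),
                ← Real.rpow_neg (by norm_num)]
              congr 1
              ring
            rw [e1, e2]
            have hρk : 0 < ρ ^ k := by positivity
            field_simp
            ring
    have hmain : ∫⁻ τ in Ioo 0 T ∩ {τ | r < ‖G τ‖}, ‖G τ‖ₑ ^ 2
        ≤ ENNReal.ofReal (4 * C' / Real.sqrt r * ∑' k : ℕ, ρ ^ k) := by
      calc ∫⁻ τ in Ioo 0 T ∩ {τ | r < ‖G τ‖}, ‖G τ‖ₑ ^ 2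
          = ∫⁻ τ in {τ | r < ‖G τ‖}, ‖G τ‖ₑ ^ 2 ∂μ := by
            rw [hμ, Measure.restrict_restrict₀ hset, inter_comm]
        _ ≤ ∫⁻ τ in ⋃ k : ℕ, S k, ‖G τ‖ₑ ^ 2 ∂μ := lintegral_mono_set hcov
        _ ≤ ∑' k : ℕ, ∫⁻ τ in S k, ‖G τ‖ₑ ^ 2 ∂μ := lintegral_iUnion_le _ _
        _ ≤ ∑' k : ℕ, ENNReal.ofReal (4 * C' / Real.sqrt r * ρ ^ k) :=
            ENNReal.tsum_le_tsum hpiece
        _ = ENNReal.ofReal (4 * C' / Real.sqrt r * ∑' k : ℕ, ρ ^ k) := by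
            rw [← ENNReal.ofReal_tsum_of_nonneg (fun k => by positivity) (hρs.mul_left _),
              tsum_mul_left]
    calc ENNReal.ofReal (Real.sqrt r) * ∫⁻ τ in Ioo 0 T ∩ {τ | r < ‖G τ‖}, ‖G τ‖ₑ ^ 2
        ≤ ENNReal.ofReal (Real.sqrt r)
            * ENNReal.ofReal (4 * C' / Real.sqrt r * ∑' k : ℕ, ρ ^ k) := by gcongr
      _ = ENNReal.ofReal (4 * C' * ∑' k : ℕ, ρ ^ k) := by
          rw [← ENNReal.ofReal_mul hsr.le]
          congr 1
          field_simp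
  refine ne_top_of_le_ne_top ENNReal.ofReal_ne_top
    (liminf_le_of_frequently_le' (x := ENNReal.ofReal (4 * C' * ∑' k : ℕ, ρ ^ k)) ?_)
  refine Eventually.frequently ?_
  filter_upwards [eventually_ge_atTop (1 : ℝ)] with r hr
  exact key r hr

end Pool.Agent.Helper30.EJ
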